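import Pool.Agent.Helper11K9.PC.Fac
import Pool.Agent.R882.GLd
import Pool.Agent.W619.PQ.Final
import Pool.Agent.Y172.Cov2

/-!
The regular differentials of the geometric generic fibre of a product of curves over the product of
all curves but one.
-/

set_option autoImplicit false
set_option linter.overlappingInstances false
set_option linter.unusedSectionVars false

open FF

namespace Pool.Agent.Helper11K9.PC

open Pool.Agent.W603.LV Pool.Agent.W602.RG
open Pool.Agent.W602.GT (Divisorial RegAt IsPluri)
open Pool.Agent.W619.PQ (extForm)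
open Pool.Agent.R882.GL (SpanFib)

theorem alg_const {k K : Type} [Field k] [IsAlgClosed k] [Field K] [Algebra k K] {z : K}
    (h : IsAlgebraic k z) : ∃ c : k, algebraMap k K c = z := by
  have h3 : Algebra.IsIntegral k (IntermediateField.adjoin k {z}) := by
    have := IntermediateField.isAlgebraic_adjoin_simple h.isIntegral
    exact this.isIntegral
  obtain ⟨c, hc⟩ := (IsAlgClosed.algebraMap_bijective_of_isIntegral
    (k := k) (K := IntermediateField.adjoin k {z})).2
    ⟨z, IntermediateField.mem_adjoin_simple_self k z⟩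
  exact ⟨c, congrArg Subtype.val hc⟩

section

variable {K : Type} [Field K] [Algebra ℂ K] {n : ℕ}

/-- the kernel of a derivation -/
def ker (D : Derivation ℂ K K) : IntermediateField ℂ K where
  carrier := {f | D f = 0}
  mul_mem' := fun {f g} hf hg => by
    change D (f * g) = 0
    rw [D.leibniz, show D f = 0 from hf, show D g = 0 from hg]
    simp
  add_mem' := fun {f g} hf hg => by
    change D (f + g) = 0
    rw [map_add, show D f = 0 from hf, show D g = 0 from hg, add_zero]
  algebraMap_mem' := fun c => D.map_algebraMap c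
  inv_mem' := fun f hf => by
    change D f⁻¹ = 0
    rw [Derivation.leibniz_inv, show D f = 0 from hf, smul_zero]

theorem mem_ker {D : Derivation ℂ K K} {z : K} : z ∈ ker D ↔ D z = 0 := Iff.rfl

variable {F : Fin (n + 1) → IntermediateField ℂ K} [∀ i, IsFF ℂ (F i)]
  {D : ∀ i, Derivation ℂ (F i) (F i)} {x : ∀ i, F i}

/-- the value of the exterior product on the frame of the fibration -/
theorem form_val (hsup : ⨆ i, F i = ⊤) (hn : Algebra.trdeg ℂ K = (n + 1 : ℕ))
    (hD : ∀ i, D i ≠ 0) (hx : ∀ i, Transcendental ℂ (x i)) (i0 : Fin (n + 1)) (c : ∀ i, F i)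
    (hc : ∀ i, i ≠ i0 → c i ≠ 0) {t : Fin n → K} {ξ : K} (ht : ∀ j, t j ∈ Bf F i0)
    (hy : IsTranscendenceBasis ℂ (Fin.append t (fun _ : Fin 1 => ξ)))
    {E : Fin (n + 1) → Derivation ℂ K K}
    (hE : ∀ i j, E i (Fin.append t (fun _ : Fin 1 => ξ) j) = if i = j then 1 else 0) :
    (∀ z ∈ Bf F i0, E (Fin.last n) z = 0) ∧ ∃ μ : K, μ ≠ 0 ∧ E (Fin.last n) μ = 0 ∧ ∀ v : F i0,
      extForm 1 D x (Function.update c i0 v) E =
        μ * (v : K) * (E (Fin.last n) (x i0 : K) / (D i0 (x i0) : K)) := by
  classical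
  have hK0 : CharZero K := charZero_of_injective_algebraMap (algebraMap ℂ K).injective
  have htB := trdeg_Bf F hsup (by exact_mod_cast hn) i0
  have htB' : Algebra.trdeg ℂ (Bf F i0) = (n : ℕ) := by
    have h1 : Algebra.trdeg ℂ (Bf F i0) + 1 = (n : Cardinal) + 1 := by
      rw [htB]
      push_cast
      rfl
    exact (Cardinal.add_nat_inj 1).1 (by exact_mod_cast h1)
  -- the last vector field is zero on the base
  obtain ⟨t', ht'⟩ : ∃ t' : Fin n → Bf F i0, ∀ j, (t' j : K) = t j :=
    ⟨fun j => ⟨t j, ht j⟩, fun _ => rfl⟩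
  have htb : IsTranscendenceBasis ℂ t' := by
    have h1 : AlgebraicIndependent ℂ t' := by
      refine AlgebraicIndependent.of_comp (Bf F i0).val ?_
      have h2 : ((Bf F i0).val ∘ t') = Fin.append t (fun _ : Fin 1 => ξ) ∘ Fin.castAdd 1 := by
        funext j
        rw [Function.comp_apply, Function.comp_apply, Fin.append_left]
        exact ht' j
      rw [h2]
      exact hy.1.comp _ (Fin.castAdd_injective n 1)
    refine h1.isTranscendenceBasis_of_lift_trdeg_le_of_finite ?_
    rw [htB']
    simp
  have hEt : ∀ j, E (Fin.last n) (t j) = 0 := by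
    intro j
    have h1 := hE (Fin.last n) (Fin.castAdd 1 j)
    rw [Fin.append_left, if_neg (by
      intro h
      have := congrArg Fin.val h
      simp at this
      omega)] at h1
    exact h1
  have hker : ∀ z ∈ Bf F i0, E (Fin.last n) z = 0 := by
    intro z hz
    have h1 : (E (Fin.last n)).compAlgebraMap (Bf F i0) = 0 :=
      der_zero_of_basis htb _ fun j => by
        change E (Fin.last n) ((t' j : Bf F i0) : K) = 0
        rw [ht', hEt]
    exact DFunLike.congr_fun h1 (⟨z, hz⟩ : Bf F i0)
  refine ⟨hker, ?_⟩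
  -- the vector fields commute
  have hcomm : ∀ a, ∀ z, E (Fin.last n) z = 0 → E (Fin.last n) (E a z) = 0 := by
    intro a z hz
    have h1 : ⁅E (Fin.last n), E a⁆ = 0 := by
      refine der_zero_of_basis hy _ fun j => ?_
      rw [Derivation.commutator_apply, hE, hE]
      have h2 : ∀ (p : Prop) [Decidable p] (G : Derivation ℂ K K), G (if p then 1 else 0) = 0 := by
        intro p _ G
        split_ifs
        · exact G.map_one_eq_zero
        · exact map_zero G
      rw [h2, h2, sub_zero]
    have h2 := DFunLike.congr_fun h1 z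
    rw [Derivation.commutator_apply, hz, map_zero, sub_zero] at h2
    exact h2
  -- the determinant
  obtain ⟨A, hA⟩ : ∃ A : Matrix (Fin (n + 1)) (Fin (n + 1)) K,
    A = Matrix.of fun j i => E j (x i : K) := ⟨_, rfl⟩
  have hdet : A.det ≠ 0 := by
    have hxb : IsTranscendenceBasis ℂ fun i => algebraMap (F i) K (x i) :=
      Pool.Agent.W619.PQ.basis_of_iSup F hsup (by exact_mod_cast hn) x hx
    obtain ⟨G, hG⟩ := Pool.Agent.W619.PQ.extForm_ne (K := K) 1 D x (fun _ => 1)
      (fun i => one_ne_zero) (fun i => der_ne_zero (hD i) (hx i)) hxb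
    have h1 := Pool.Agent.Y172.pluri_coord hy hE (m := 1)
      (ω := extForm 1 D x (fun _ => 1)) (Pool.Agent.W619.PQ.extForm_pluri 1 D x _) G
    rw [h1] at hG
    have h2 := right_ne_zero_of_mul hG
    unfold extForm at h2
    have h3 := right_ne_zero_of_mul h2
    rw [pow_one] at h3
    rw [hA]
    exact h3
  have hAlast : ∀ i, i ≠ i0 → A (Fin.last n) i = 0 := by
    intro i hi
    rw [hA]
    exact hker _ (le_Bf F hi (x i).2)
  have hexp : A.det = (-1) ^ ((Fin.last n : ℕ) + (i0 : ℕ)) * A (Fin.last n) i0 *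
      (A.submatrix (Fin.last n).succAbove i0.succAbove).det := by
    rw [Matrix.det_succ_row A (Fin.last n), Finset.sum_eq_single i0]
    · intro j _ hj
      rw [hAlast j hj, mul_zero, zero_mul]
    · intro h
      exact absurd (Finset.mem_univ _) h
  have hdet' : (A.submatrix (Fin.last n).succAbove i0.succAbove).det ≠ 0 := by
    intro h
    rw [h, mul_zero] at hexp
    exact hdet hexp
  have hkd : E (Fin.last n) (A.submatrix (Fin.last n).succAbove i0.succAbove).det = 0 := by
    rw [← mem_ker]
    rw [Matrix.det_apply]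
    refine sum_mem fun σ _ => ?_
    rw [Units.smul_def, zsmul_eq_mul]
    refine mul_mem (intCast_mem _ _) (prod_mem fun j _ => ?_)
    rw [Matrix.submatrix_apply, hA, Matrix.of_apply, mem_ker]
    apply hcomm
    exact hker _ (le_Bf F (Fin.succAbove_ne _ _) (x _).2)
  refine ⟨(∏ i ∈ Finset.univ.erase i0, ((c i / D i (x i) ^ 1 : F i) : K)) *
    ((-1) ^ ((Fin.last n : ℕ) + (i0 : ℕ)) *
      (A.submatrix (Fin.last n).succAbove i0.succAbove).det), ?_, ?_, ?_⟩
  · refine mul_ne_zero (Finset.prod_ne_zero_iff.2 fun i hi => ?_) (mul_ne_zero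
      (pow_ne_zero _ (neg_ne_zero.2 one_ne_zero)) hdet')
    intro h
    have h1 : (c i / D i (x i) ^ 1 : F i) = 0 := Subtype.ext h
    exact div_ne_zero (hc i (Finset.ne_of_mem_erase hi))
      (pow_ne_zero _ (der_ne_zero (hD i) (hx i))) h1
  · rw [← mem_ker]
    refine mul_mem (prod_mem fun i hi => ?_) (mul_mem (pow_mem (neg_mem (one_mem _)) _) hkd)
    rw [mem_ker]
    exact hker _ (le_Bf F (Finset.ne_of_mem_erase hi) (c i / D i (x i) ^ 1).2)
  · intro v
    have h1 : extForm 1 D x (Function.update c i0 v) E =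
        (∏ i, algebraMap (F i) K ((Function.update c i0 v) i / (D i (x i)) ^ 1)) * A.det ^ 1 := by
      rw [hA]
      rfl
    rw [h1, pow_one, hexp, ← Finset.mul_prod_erase _ _ (Finset.mem_univ i0), Function.update_self]
    have h2 : ∏ i ∈ Finset.univ.erase i0,
        algebraMap (F i) K ((Function.update c i0 v) i / (D i (x i)) ^ 1) =
        ∏ i ∈ Finset.univ.erase i0, ((c i / D i (x i) ^ 1 : F i) : K) :=
      Finset.prod_congr rfl fun i hi => by
        rw [Function.update_of_ne (Finset.ne_of_mem_erase hi)]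
        rfl
    rw [h2]
    have h3 : algebraMap (F i0) K (v / D i0 (x i0) ^ 1) = (v : K) / (D i0 (x i0) : K) := by
      rw [pow_one, map_div₀]
      rfl
    have h4 : A (Fin.last n) i0 = E (Fin.last n) (x i0 : K) := by
      rw [hA]
      rfl
    rw [h3, h4]
    ring

/-- **The regular differentials of the geometric generic fibre.** -/
theorem span_fib (hsup : ⨆ i, F i = ⊤) (hn : Algebra.trdeg ℂ K = (n + 1 : ℕ))
    (hD : ∀ i, D i ≠ 0) (hx : ∀ i, Transcendental ℂ (x i)) (i0 : Fin (n + 1)) (c : ∀ i, F i)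
    (hc : ∀ i, i ≠ i0 → c i ≠ 0) {J : Type} (b : J → F i0)
    (hb : ∀ l : F i0, (l = 0 ∨ ∀ p : Place ℂ (F i0), vo p (D i0) ≤ p.ord l) →
      l ∈ Submodule.span ℂ (Set.range b)) :
    SpanFib (Bf F i0) (fun j => extForm 1 D x (Function.update c i0 (b j))) := by
  classical
  intro Λ F' _ _ _ _ _ _ _ φ hFF hgen hBφ htr t ξ ht hy E hE D' hD' _ f hf0 hf
  obtain ⟨hker, μ, hμ0, hμk, hval⟩ := form_val hsup hn hD hx i0 c hc ht hy hE
  have hΛ0 : CharZero Λ := charZero_of_injective_algebraMap (algebraMap ℂ Λ).injective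
  let iK : Algebra K F' := φ.toRingHom.toAlgebra
  have hKφ : ∀ z, algebraMap K F' z = φ z := fun _ => rfl
  have tK : IsScalarTower ℂ K F' := IsScalarTower.of_algebraMap_eq fun z => (φ.commutes z).symm
  let iL : Algebra (F i0) F' := (φ.comp (F i0).val).toRingHom.toAlgebra
  have hLφ : ∀ z : F i0, algebraMap (F i0) F' z = φ (z : K) := fun _ => rfl
  have tL : IsScalarTower ℂ (F i0) F' := IsScalarTower.of_algebraMap_eq fun z =>
    (φ.commutes z).symm
  have hxt : Transcendental Λ (algebraMap (F i0) F' (x i0)) := by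
    rw [hLφ]
    exact htr _ (transc_factor F hsup (by exact_mod_cast hn) i0 (hx i0))
  have bc : BC ℂ (F i0) Λ F' := by
    refine bc_mk (x := x i0) hxt ?_
    rw [eq_top_iff, ← hgen, IntermediateField.adjoin_le_iff]
    rintro _ ⟨z, rfl⟩
    have h1 := all_mem F hsup (i := i0)
      (S := ((IntermediateField.adjoin Λ (Set.range (algebraMap (F i0) F'))).restrictScalars ℂ).comap
        φ) (fun y hy => by
          obtain ⟨a, ha⟩ := hBφ y hy
          change φ y ∈ IntermediateField.adjoin Λ (Set.range (algebraMap (F i0) F'))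
          rw [← ha]
          exact (IntermediateField.adjoin Λ _).algebraMap_mem a)
        (fun y hy => IntermediateField.subset_adjoin _ _ ⟨⟨y, hy⟩, rfl⟩) z
    exact h1
  have hD'0 : D' ≠ 0 := by
    intro h
    rw [h] at hD'
    exact zero_ne_one hD'
  obtain ⟨Dd, hDd0, hDd⟩ := exists_der_ext bc (hD i0)
  obtain ⟨h, hh⟩ := der_smul (D' := Dd) hD'0
  have hh0 : h ≠ 0 := by
    rintro rfl
    rw [zero_smul] at hh
    exact hDd0 hh
  -- the vector fields
  have hint : ∀ z : K, D' (φ z) = φ (E (Fin.last n) z) := by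
    have h1 : (D'.restrictScalars ℂ).compAlgebraMap K -
        (Algebra.linearMap K F').compDer (E (Fin.last n)) = 0 := by
      refine der_zero_of_basis hy _ fun j => ?_
      change D' (φ (Fin.append t (fun _ : Fin 1 => ξ) j)) -
        φ (E (Fin.last n) (Fin.append t (fun _ : Fin 1 => ξ) j)) = 0
      refine Fin.addCases (fun j => ?_) (fun j => ?_) j
      · rw [Fin.append_left, hker _ (ht j), map_zero, sub_zero]
        obtain ⟨a, ha⟩ := hBφ _ (ht j)
        rw [← ha, D'.map_algebraMap]
      · rw [hE, Fin.append_right, hD', if_pos (by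
          apply Fin.ext
          have := j.2
          simp only [Fin.val_last, Fin.val_natAdd]
          omega), map_one, sub_self]
    intro z
    have h2 := DFunLike.congr_fun h1 z
    exact sub_eq_zero.1 h2
  have hconst : ∀ z : K, E (Fin.last n) z = 0 → ∃ a : Λ, algebraMap Λ F' a = φ z := by
    intro z hz
    apply alg_const
    by_contra hcon
    have h1 := der_ne_zero hD'0 hcon
    rw [hint, hz, map_zero] at h1
    exact h1 rfl
  obtain ⟨a, ha⟩ := hconst μ hμk
  have ha0 : a ≠ 0 := by
    rintro rfl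
    rw [map_zero] at ha
    exact (_root_.map_ne_zero φ).2 hμ0 ha.symm
  have hDx0 : (D i0 (x i0) : K) ≠ 0 := fun h => der_ne_zero (hD i0) (hx i0) (Subtype.ext h)
  have hval' : ∀ v : F i0, φ (extForm 1 D x (Function.update c i0 v) E) * h =
      algebraMap Λ F' a * φ (v : K) := by
    intro v
    rw [hval, map_mul, map_mul, map_div₀, ← ha, ← hint]
    have h1 := hDd (x i0)
    rw [hh, Derivation.smul_apply, smul_eq_mul, hLφ, hLφ] at h1
    rw [← h1]
    have h2 : D' (φ (x i0 : K)) ≠ 0 := der_ne_zero hD'0 hxt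
    field_simp
  -- the regular differentials
  have hfreg : ∀ Q : Place Λ F', vo Q Dd ≤ Q.ord (h * f) := by
    intro Q
    rw [hh, vo_smul Q hD'0 hh0, Q.ord_mul hh0 hf0]
    have := hf Q
    omega
  have h1 := reg_bc bc (hD i0) hDd0 hDd hfreg
  have h2 : h * f ∈ (Submodule.span Λ (Set.range fun j =>
      φ (extForm 1 D x (Function.update c i0 (b j)) E))).map (LinearMap.mulLeft Λ h) := by
    have key : ∀ l ∈ Submodule.span ℂ (Set.range b), algebraMap (F i0) F' l ∈
        (Submodule.span Λ (Set.range fun j =>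
          φ (extForm 1 D x (Function.update c i0 (b j)) E))).map (LinearMap.mulLeft Λ h) := by
      intro l hl
      induction hl using Submodule.span_induction with
      | mem l hl =>
        obtain ⟨j, rfl⟩ := hl
        refine ⟨a⁻¹ • φ (extForm 1 D x (Function.update c i0 (b j)) E),
          Submodule.smul_mem _ _ (Submodule.subset_span ⟨j, rfl⟩), ?_⟩
        rw [LinearMap.mulLeft_apply, Algebra.smul_def, hLφ, map_inv₀]
        have h4 := hval' (b j)
        have h5 : algebraMap Λ F' a ≠ 0 := (_root_.map_ne_zero _).2 ha0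
        field_simp
        linear_combination h4
      | zero =>
        rw [map_zero]
        exact Submodule.zero_mem _
      | add u v _ _ hu hv =>
        rw [map_add]
        exact Submodule.add_mem _ hu hv
      | smul r u _ hu =>
        rw [Algebra.smul_def, map_mul, ← IsScalarTower.algebraMap_apply ℂ (F i0) F',
          IsScalarTower.algebraMap_apply ℂ Λ F', ← Algebra.smul_def]
        exact Submodule.smul_mem _ _ hu
    refine Submodule.span_le.2 ?_ h1
    rintro _ ⟨l, rfl, hl⟩
    exact key l (hb l hl)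
  obtain ⟨g, hg, hg2⟩ := h2
  rw [LinearMap.mulLeft_apply] at hg2
  rw [← mul_left_cancel₀ hh0 hg2]
  exact hg

end

end Pool.Agent.Helper11K9.PC
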