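import Pool.Agent.Helper11K9.PC.Rec
import Pool.Agent.Helper11K9.PC.Fib
import Pool.Agent.R882.COver

/-!
Images of small degree of products of curves.
-/

set_option autoImplicit false
set_option linter.overlappingInstances false
set_option linter.unusedSectionVars false

open FF

namespace Pool.Agent.Helper11K9.PC

open Pool.Agent.W603.LV Pool.Agent.W602.RG
open Pool.Agent.W602.GT (Divisorial RegAt IsPluri KodGe)
open Pool.Agent.W619.PQ (extForm IsUniruled)
open Pool.Agent.R882.Over (GenusZero)

section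

variable {K : Type} [Field K] [Algebra ℂ K] {n : ℕ} {F : Fin n → IntermediateField ℂ K}
  [∀ i, IsFF ℂ (F i)] {D : ∀ i, Derivation ℂ (F i) (F i)} {x : ∀ i, F i}

/-- the exterior product of regular differentials of the factors is regular -/
theorem ext_reg (hD : ∀ i, D i ≠ 0) (hx : ∀ i, Transcendental ℂ (x i)) {f : ∀ i, F i}
    (hf : ∀ i, RegD (D i) (f i)) (P : Place ℂ K) (hn : Divisorial n P) :
    RegAt P (extForm 1 D x f) := by
  classical
  intro D' hD'
  have hs : ∀ i, ∃ s : ℚ, 0 ≤ s ∧ ((∀ g : F i, P.ord (algebraMap (F i) K g) = 0) ∨ 1 ≤ s) ∧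
      (((∀ g : F i, P.ord (algebraMap (F i) K g) = 0) ∧ s = 0) ∨
      ∃ (p : Place ℂ (F i)) (e : ℕ), Over P p e ∧
        s * (1 : ℕ) ≤ e * ((p.ord (f i) : ℚ) + (1 : ℕ) * (1 - vo p (D i)))) := by
    intro i
    by_cases h : ∃ g : F i, P.ord (algebraMap (F i) K g) ≠ 0
    · obtain ⟨e, p, hp⟩ := FF.exists_over (K := F i) P h
      refine ⟨1, zero_le_one, Or.inr le_rfl, Or.inr ⟨p, e, hp, ?_⟩⟩
      have h1 : (1 : ℚ) ≤ e := by exact_mod_cast hp.1
      have h2 : (vo p (D i) : ℚ) ≤ p.ord (f i) := by exact_mod_cast (hf i).2 p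
      push_cast
      nlinarith
    · push Not at h
      exact ⟨0, le_rfl, Or.inl h, Or.inl ⟨h, rfl⟩⟩
  choose s hs0 hs1 hs2 using hs
  refine Pool.Agent.W619.PQ.extForm_regular 1 D hD x f hx (fun i => (hf i).1) P s hs2 ?_ D' hD'
  by_cases hall : ∀ i, ∀ g : F i, P.ord (algebraMap (F i) K g) = 0
  · exact Or.inl hall
  · right
    push Not at hall
    obtain ⟨i, g, hg⟩ := hall
    have h1 : 1 ≤ s i := (hs1 i).resolve_left fun h => hg (h g)
    exact h1.trans (Finset.single_le_sum (fun j _ => hs0 j) (Finset.mem_univ i))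

/-- the value of the exterior product -/
theorem ext_val (f : ∀ i, F i) (D' : Fin n → Derivation ℂ K K) :
    extForm 1 D x f D' = extForm 1 D x (fun _ => 1) D' * ∏ i, (f i : K) := by
  unfold extForm
  have h1 : ∏ i, algebraMap (F i) K (f i / (D i (x i)) ^ 1) =
      (∏ i, algebraMap (F i) K (1 / (D i (x i)) ^ 1)) * ∏ i, (f i : K) := by
    rw [← Finset.prod_mul_distrib]
    refine Finset.prod_congr rfl fun i _ => ?_
    have h2 : (f i : K) = algebraMap (F i) K (f i) := rfl
    rw [h2, ← map_mul]
    congr 1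
    ring
  rw [h1]
  ring

end

/-- **Images of products of curves**, from vanishing geometric genus to uniruledness. -/
theorem images {K : Type} [Field K] [Algebra ℂ K] {n : ℕ} (F : Fin n → IntermediateField ℂ K)
    [∀ i, IsFF ℂ (F i)] (hsup : ⨆ i, F i = ⊤) (hn : Algebra.trdeg ℂ K = n) {γ : Fin n → ℕ}
    (hγ : ∀ i (t : F i), Transcendental ℂ t →
      γ i ≤ Module.finrank (IntermediateField.adjoin ℂ {t}) (F i))
    (L : IntermediateField ℂ K) [FiniteDimensional L K]
    (hr : ∀ i j, i ≠ j → Module.finrank L K + 3 ≤ γ i + γ j) (hg : GenusZero L n) :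
    IsUniruled ℂ L n ∧ ∃ i, γ i ≤ Module.finrank L K := by
  classical
  have hK0 : CharZero K := charZero_of_injective_algebraMap (algebraMap ℂ K).injective
  have hessK : Algebra.EssFiniteType ℂ K := ess_top F hsup
  have hessL : Algebra.EssFiniteType ℂ L := Pool.Agent.TH466.QG.ess_below (K := K)
  have hL : Algebra.trdeg ℂ L = n := Pool.Agent.Y184.NT.trdeg_below (K := K) hn
  obtain ⟨z, E, hz, hE⟩ := Pool.Agent.Y172.exists_crd (k := ℂ) (K := L) hL
  choose E' hE' using fun i => Pool.Agent.Y172.exists_lift (k := ℂ) (K := L) (L := K) hL (E i)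
  have hzK : IsTranscendenceBasis ℂ (fun j => algebraMap L K (z j)) := hz.algebraMap_comp
  have hE'd := Pool.Agent.Y172.lift_dual hE hE'
  choose x hx using fun i => IsFF.exists_transcendental (k := ℂ) (K := F i)
  obtain ⟨D, hDe⟩ : ∃ D : ∀ i, Derivation ℂ (F i) (F i), D = fun i => der ℂ (F i) := ⟨_, rfl⟩
  have hD : ∀ i, D i ≠ 0 := by
    intro i
    rw [hDe]
    exact der_ne
  obtain ⟨J, hJ⟩ : ∃ J : K, J = extForm 1 D x (fun _ => 1) E' := ⟨_, rfl⟩
  have hJ0 : J ≠ 0 := by
    have hxb : IsTranscendenceBasis ℂ fun i => algebraMap (F i) K (x i) :=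
      Pool.Agent.W619.PQ.basis_of_iSup F hsup hn x hx
    obtain ⟨G, hG⟩ := Pool.Agent.W619.PQ.extForm_ne (K := K) 1 D x (fun _ => 1)
      (fun i => one_ne_zero) (fun i => der_ne_zero (hD i) (hx i)) hxb
    have h1 := Pool.Agent.Y172.pluri_coord hzK hE'd (m := 1)
      (ω := extForm 1 D x (fun _ => 1)) (Pool.Agent.W619.PQ.extForm_pluri 1 D x _) G
    rw [h1] at hG
    rw [hJ]
    exact right_ne_zero_of_mul hG
  have hT : TrZ F D J Finset.univ L := by
    intro f hf
    have h1 := Pool.Agent.Y692.NT.t_Tr L K n hL hg (extForm 1 D x f)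
      (Pool.Agent.W619.PQ.extForm_pluri 1 D x f)
      (fun P hP => ext_reg hD hx (fun i => hf i (Finset.mem_univ i)) P hP) E E' hE'
    rw [ext_val, ← hJ] at h1
    exact h1
  obtain ⟨i, E2, hLE, hfinE, hFE, hT2⟩ := rec_main hD hsup hγ hJ0 hr n Finset.univ L
    (by simp) inferInstance le_rfl (fun j hj => absurd (Finset.mem_univ j) hj) hT
  obtain ⟨m, rfl⟩ : ∃ m, n = m + 1 := ⟨n - 1, by have := i.pos; omega⟩
  have hle : Bf F i ≤ E2 := Bf_le F fun j hj => (hFE j hj).1
  refine ⟨?_, i, ?_⟩
  swap
  · -- the degree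
    by_contra hcon
    push Not at hcon
    have h1 : Module.finrank E2 K ≤ Module.finrank L K := by
      have h2 := Module.finrank_mul_finrank L (IntermediateField.extendScalars hLE) K
      have h3 : 0 < Module.finrank L (IntermediateField.extendScalars hLE) := Module.finrank_pos
      have h4 : Module.finrank (IntermediateField.extendScalars hLE) K = Module.finrank E2 K := rfl
      rw [← h2, h4]
      exact Nat.le_mul_of_pos_left _ h3
    have h2 : Module.finrank E2 (IntermediateField.adjoin E2 (F i : Set K)) < γ i := by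
      refine lt_of_le_of_lt ?_ hcon
      refine le_trans ?_ h1
      rw [← Module.finrank_mul_finrank E2 (IntermediateField.adjoin E2 (F i : Set K)) K]
      exact Nat.le_mul_of_pos_right _ Module.finrank_pos
    have h3 := step hT2 (Finset.mem_singleton_self i) (hD i) fun t ht =>
      lt_of_lt_of_le h2 (hγ i t ht)
    have h4 := h3 (fun _ => 0) (fun j hj => by simp at hj)
    have h5 : ({i} : Finset (Fin (m + 1))).erase i = ∅ := by simp
    rw [h5, Finset.prod_empty, mul_one] at h4
    obtain ⟨N, hN⟩ : ∃ N : IntermediateField ℂ K,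
      N = (IntermediateField.adjoin E2 (F i : Set K)).restrictScalars ℂ := ⟨_, rfl⟩
    have hNtop : ∀ w : K, w ∈ N := by
      rw [hN]
      refine all_mem F hsup (i := i) (fun w hw => ?_) fun w hw => ?_
      · rw [IntermediateField.mem_restrictScalars]
        exact (IntermediateField.adjoin E2 (F i : Set K)).algebraMap_mem ⟨w, hle hw⟩
      · rw [IntermediateField.mem_restrictScalars]
        exact IntermediateField.subset_adjoin _ _ hw
    have hNfin : FiniteDimensional N K := by
      rw [hN]
      exact inferInstanceAs (FiniteDimensional (IntermediateField.adjoin E2 (F i : Set K)) K)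
    rw [← hN] at h4
    obtain ⟨J', hJ'⟩ : ∃ J' : N, algebraMap N K J' = J := ⟨⟨J, hNtop J⟩, rfl⟩
    rw [← hJ', Algebra.trace_algebraMap] at h4
    have hN0 : CharZero N := charZero_of_injective_algebraMap (algebraMap ℂ N).injective
    rw [nsmul_eq_mul, mul_eq_zero] at h4
    rcases h4 with h4 | h4
    · exact Module.finrank_pos.ne' (Nat.cast_eq_zero.1 h4)
    · apply hJ0
      rw [← hJ', h4, map_zero]
  -- uniruledness
  have hBtr : Algebra.trdeg ℂ (Bf F i) = (m : ℕ) := by
    have h1 := trdeg_Bf F hsup hn i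
    have h2 : Algebra.trdeg ℂ (Bf F i) + 1 = (m : Cardinal) + 1 := by
      rw [h1]
      push_cast
      rfl
    exact (Cardinal.add_nat_inj 1).1 (by exact_mod_cast h2)
  have hc : ∀ j, ∃ c : F j, j ≠ i → RegD (D j) c := by
    intro j
    by_cases hj : j = i
    · exact ⟨0, fun h => absurd hj h⟩
    · obtain ⟨c, hc⟩ := exists_regD (hD j) fun t ht =>
        lt_of_lt_of_le (by have := (hFE j hj).2; omega) (hγ j t ht)
      exact ⟨c, fun _ => hc⟩
  choose c hc using hc
  have hVfin : Module.Finite ℂ (RR (D i) (hD i)) := finDim_LL _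
  let b := Module.finBasis ℂ (RR (D i) (hD i))
  have hbreg : ∀ j, RegD (D i) (b j : F i) := by
    intro j
    have h1 : (b j : F i) ≠ 0 := fun h => b.ne_zero j (Subtype.ext h)
    exact ⟨h1, (mem_RR.1 (b j).2).resolve_left h1⟩
  have hupd : ∀ j l, RegD (D l) (Function.update c i (b j : F i) l) := by
    intro j l
    by_cases hl : l = i
    · subst hl
      rw [Function.update_self]
      exact hbreg j
    · rw [Function.update_of_ne hl]
      exact hc l hl
  have hmemE : ∀ w ∈ E2, w ∈ (IntermediateField.extendScalars hle).restrictScalars ℂ := by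
    intro w hw
    exact hw
  have hfinE' : FiniteDimensional (IntermediateField.extendScalars hle) K := hfinE
  have huni := Pool.Agent.R882.GL.dich (n := m) hn (Bf F i) hBtr
    (fun w hw => Bf_closed F hsup hn i hw) (IntermediateField.extendScalars hle)
    (fun j => extForm 1 D x (Function.update c i (b j : F i)))
    (fun j => Pool.Agent.W619.PQ.extForm_pluri 1 D x _)
    (fun j P hP => ext_reg hD hx (hupd j) P hP)
    (span_fib hsup hn hD hx i c (fun j hj => (hc j hj).1) (fun j => (b j : F i)) (fun l hl => by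
      have h1 : l ∈ RR (D i) (hD i) := mem_RR.2 hl
      have h2 := congrArg (RR (D i) (hD i)).subtype (b.sum_repr ⟨l, h1⟩)
      rw [map_sum] at h2
      simp only [map_smul, Submodule.subtype_apply] at h2
      rw [← h2]
      exact Submodule.sum_mem _ fun j _ =>
        Submodule.smul_mem _ _ (Submodule.subset_span ⟨j, rfl⟩)))
    (by
      rw [IntermediateField.extendScalars_restrictScalars]
      rintro j ⟨D0, D1, hD1, hne⟩
      apply hne
      have h1 := Pool.Agent.Y172.pluri_coord hzK hE'd (m := 1)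
        (ω := extForm 1 D x (Function.update c i (b j : F i)))
        (Pool.Agent.W619.PQ.extForm_pluri 1 D x _) D1
      obtain ⟨δ, hδ⟩ : ∃ δ : E2, δ = (Matrix.of fun a l => D0 a ⟨algebraMap L K (z l), hLE (z l).2⟩ :
        Matrix (Fin (m + 1)) (Fin (m + 1)) E2).det := ⟨_, rfl⟩
      obtain ⟨ε, hε⟩ : ∃ ε : E2, (ε : K) = ∏ l ∈ Finset.univ.erase i, (c l : K) :=
        ⟨⟨∏ l ∈ Finset.univ.erase i, (c l : K), prod_mem fun l hl =>
          (hFE l (Finset.ne_of_mem_erase hl)).1 (c l).2⟩, rfl⟩
      have h2 : extForm 1 D x (Function.update c i (b j : F i)) D1 =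
          (δ * ε) • (J * ((b j : F i) : K)) := by
        rw [h1, pow_one, ext_val, ← hJ, ← Finset.mul_prod_erase _ _ (Finset.mem_univ i),
          Function.update_self, Algebra.smul_def, map_mul]
        have h3 : ∏ l ∈ Finset.univ.erase i,
            ((Function.update c i (b j : F i) l : F l) : K) =
            ∏ l ∈ Finset.univ.erase i, (c l : K) :=
          Finset.prod_congr rfl fun l hl => by
            rw [Function.update_of_ne (Finset.ne_of_mem_erase hl)]
        have h4 : algebraMap E2 K ε = ∏ l ∈ Finset.univ.erase i, (c l : K) := hε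
        have h5 : algebraMap E2 K δ =
            (Matrix.of fun a l => D1 a (algebraMap L K (z l))).det := by
          rw [hδ, RingHom.map_det]
          congr 1
          ext a l
          rw [RingHom.mapMatrix_apply, Matrix.map_apply, Matrix.of_apply, Matrix.of_apply]
          exact (hD1 a ⟨algebraMap L K (z l), hLE (z l).2⟩).symm
        rw [h3, h4, h5]
        ring
      rw [h2, map_smul]
      have h3 := hT2 (Function.update c i (b j : F i)) (fun l _ => hupd j l)
      rw [Finset.prod_singleton, Function.update_self] at h3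
      rw [h3, smul_zero])
  obtain ⟨M, i1, i2, hM, htr, ⟨ψ⟩⟩ := huni
  let φ : L →ₐ[ℂ] (IntermediateField.extendScalars hle).restrictScalars ℂ :=
    { toFun := fun f => ⟨(f : K), hmemE _ (hLE f.2)⟩
      map_one' := Subtype.ext rfl
      map_mul' := fun f g => Subtype.ext rfl
      map_zero' := Subtype.ext rfl
      map_add' := fun f g => Subtype.ext rfl
      commutes' := fun c => Subtype.ext rfl }
  exact ⟨M, i1, i2, hM, htr, ⟨ψ.comp φ⟩⟩

end Pool.Agent.Helper11K9.PC
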