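import Pool.Agent.Helper11K9.PC.BCa
import Pool.Agent.W440.RG.RGM
import Pool.Agent.W797.RG.EXT
import Pool.Agent.W160.RG.DER
import Pool.Agent.W215.RG.RGC
import Pool.Agent.TH143.GE.Form
import Pool.Agent.W619.PQ.Core

/-!
Constant field extensions of function fields of curves: regular differentials.
-/

set_option autoImplicit false
set_option linter.overlappingInstances false
set_option linter.unusedSectionVars false

open FF

namespace Pool.Agent.Helper11K9.PC

open Pool.Agent.W603.LV Pool.Agent.W602.RG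

section descent

variable {k Ω ι : Type} [Field k] [Field Ω] [Algebra k Ω] [IsAlgClosed k] [CharZero k]

/-- **Descent**: a space of vectors that is stable under all derivations of the field of scalars is
spanned by vectors with constant coordinates. -/
theorem descent (W : Submodule Ω (ι →₀ Ω))
    (hW : ∀ (δ : Derivation k Ω Ω) (w : ι →₀ Ω), w ∈ W → w.mapRange δ (map_zero δ) ∈ W) :
    ∀ (m : ℕ) (w : ι →₀ Ω), w.support.card = m → w ∈ W →
      w ∈ Submodule.span Ω {w | w ∈ W ∧ ∀ i, ∃ c : k, algebraMap k Ω c = w i} := by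
  classical
  intro m
  induction m using Nat.strong_induction_on with
  | _ m ih =>
  intro w hwm hw
  by_cases hw0 : w = 0
  · rw [hw0]
    exact Submodule.zero_mem _
  have hex : ∃ d : ℕ, ∃ w' : ι →₀ Ω, w' ∈ W ∧ w' ≠ 0 ∧ w'.support ⊆ w.support ∧
      w'.support.card = d := ⟨_, w, hw, hw0, le_rfl, rfl⟩
  obtain ⟨w', hw'W, hw'0, hw's, hw'd⟩ := Nat.find_spec hex
  have hmin : ∀ w'' : ι →₀ Ω, w'' ∈ W → w''.support ⊆ w.support →
      w''.support.card < w'.support.card → w'' = 0 := by
    intro w'' h1 h2 h3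
    by_contra h4
    have h5 := Nat.find_min' hex ⟨w'', h1, h4, h2, rfl⟩
    omega
  obtain ⟨j, hj⟩ := Finsupp.support_nonempty_iff.2 hw'0
  have hj0 : w' j ≠ 0 := Finsupp.mem_support_iff.1 hj
  obtain ⟨u, hu⟩ : ∃ u : ι →₀ Ω, u = (w' j)⁻¹ • w' := ⟨_, rfl⟩
  have huW : u ∈ W := by
    rw [hu]
    exact Submodule.smul_mem _ _ hw'W
  have huj : u j = 1 := by
    rw [hu, Finsupp.smul_apply, smul_eq_mul, inv_mul_cancel₀ hj0]
  have hus : u.support = w'.support := by
    rw [hu]
    exact Finsupp.support_smul_eq (inv_ne_zero hj0)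
  have hδ : ∀ δ : Derivation k Ω Ω, u.mapRange δ (map_zero δ) = 0 := by
    intro δ
    have h1 : (u.mapRange δ (map_zero δ)).support ⊆ w'.support.erase j := by
      intro i hi
      rw [Finsupp.mem_support_iff, Finsupp.mapRange_apply] at hi
      rw [Finset.mem_erase]
      refine ⟨?_, ?_⟩
      · rintro rfl
        rw [huj, Derivation.map_one_eq_zero] at hi
        exact hi rfl
      · rw [← hus, Finsupp.mem_support_iff]
        intro h
        rw [h, map_zero] at hi
        exact hi rfl
    refine hmin _ (hW δ u huW) (h1.trans ((Finset.erase_subset _ _).trans hw's)) ?_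
    refine lt_of_le_of_lt (Finset.card_le_card h1) ?_
    exact Finset.card_erase_lt_of_mem hj
  have huk : ∀ i, ∃ c : k, algebraMap k Ω c = u i := by
    intro i
    by_contra hcon
    have h1 : Transcendental k (u i) := by
      intro h
      apply hcon
      have h3 : Algebra.IsIntegral k (IntermediateField.adjoin k {u i}) := by
        have := IntermediateField.isAlgebraic_adjoin_simple h.isIntegral
        exact this.isIntegral
      obtain ⟨c, hc⟩ := (IsAlgClosed.algebraMap_bijective_of_isIntegral
        (k := k) (K := IntermediateField.adjoin k {u i})).2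
        ⟨u i, IntermediateField.mem_adjoin_simple_self k (u i)⟩
      exact ⟨c, congrArg Subtype.val hc⟩
    obtain ⟨δ, hδ'⟩ := Pool.Agent.W160.RG.DER.main k Ω (u i) h1
    apply hδ'
    have h2 := DFunLike.congr_fun (hδ δ) i
    rwa [Finsupp.mapRange_apply] at h2
  have hdiff : w - w j • u ∈ Submodule.span Ω {w | w ∈ W ∧ ∀ i, ∃ c : k, algebraMap k Ω c = w i} := by
    refine ih _ ?_ _ rfl (Submodule.sub_mem _ hw (Submodule.smul_mem _ _ huW))
    rw [← hwm]
    have h1 : (w - w j • u).support ⊆ w.support.erase j := by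
      intro i hi
      rw [Finsupp.mem_support_iff, Finsupp.sub_apply, Finsupp.smul_apply] at hi
      rw [Finset.mem_erase]
      refine ⟨?_, ?_⟩
      · rintro rfl
        rw [huj, smul_eq_mul, mul_one, sub_self] at hi
        exact hi rfl
      · by_contra h
        have h2 : w i = 0 := Finsupp.notMem_support_iff.1 h
        have h3 : u i = 0 := by
          by_contra h3
          apply h
          apply hw's
          rw [← hus]
          exact Finsupp.mem_support_iff.2 h3
        rw [h2, h3, smul_zero, sub_zero] at hi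
        exact hi rfl
    exact lt_of_le_of_lt (Finset.card_le_card h1) (Finset.card_erase_lt_of_mem (hw's hj))
  have h1 : w = (w - w j • u) + w j • u := by abel
  rw [h1]
  exact Submodule.add_mem _ hdiff (Submodule.smul_mem _ _ (Submodule.subset_span ⟨huW, huk⟩))

end descent

section

variable {k L Ω E : Type} [Field k] [Field L] [Field Ω] [Field E] [Algebra k L]
    [Algebra k Ω] [Algebra k E] [Algebra L E] [Algebra Ω E]

/-- the images of a basis are linearly independent -/
theorem bc_li (bc : BC k L Ω E) {ι : Type} {v : ι → L} (hv : LinearIndependent k v) :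
    LinearIndependent Ω fun i => algebraMap L E (v i) := by
  classical
  rw [linearIndependent_iff']
  intro s g hg i hi
  have h1 : LinearIndependent k fun j : Fin s.card => v (s.equivFin.symm j) :=
    hv.comp _ (Subtype.val_injective.comp s.equivFin.symm.injective)
  have h2 := bc.ld _ _ h1
  rw [Fintype.linearIndependent_iff] at h2
  have h3 := h2 (fun j => g (s.equivFin.symm j)) (by
    rw [← hg, ← Finset.sum_coe_sort s]
    exact Equiv.sum_comp s.equivFin.symm fun l : s => g l • algebraMap L E (v l))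
    (s.equivFin ⟨i, hi⟩)
  rwa [Equiv.symm_apply_apply] at h3

/-- **Descent** for subspaces of the span of `L` over `Ω`. -/
theorem descentU [IsAlgClosed k] [CharZero k] (bc : BC k L Ω E) (W : Submodule Ω E)
    (hWU : W ≤ Submodule.span Ω (Set.range (algebraMap L E)))
    (hW : ∀ (D : Derivation L E E) (D0 : Derivation k Ω Ω),
      (∀ w, D (algebraMap Ω E w) = algebraMap Ω E (D0 w)) → ∀ f ∈ W, D f ∈ W) :
    W ≤ Submodule.span Ω {f | ∃ l, algebraMap L E l = f ∧ f ∈ W} := by
  classical
  have _ := bc.towerL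
  have _ := bc.towerO
  let b := Module.Basis.ofVectorSpace k L
  have hli := bc_li bc b.linearIndependent
  let T : (_ →₀ Ω) →ₗ[Ω] E := Finsupp.linearCombination Ω fun i => algebraMap L E (b i)
  have hT : ∀ w, T w = w.sum fun i c => algebraMap Ω E c * algebraMap L E (b i) := by
    intro w
    rw [Finsupp.linearCombination_apply]
    exact Finsupp.sum_congr fun i _ => Algebra.smul_def _ _
  have hsurj : ∀ f ∈ Submodule.span Ω (Set.range (algebraMap L E)), ∃ w, T w = f := by
    intro f hf
    induction hf using Submodule.span_induction with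
    | mem f hf =>
      obtain ⟨l, rfl⟩ := hf
      refine ⟨(b.repr l).mapRange (algebraMap k Ω) (map_zero _), ?_⟩
      rw [hT, Finsupp.sum_mapRange_index (by intro i; rw [map_zero, zero_mul])]
      conv_rhs => rw [← b.linearCombination_repr l, Finsupp.linearCombination_apply, Finsupp.sum,
        map_sum]
      refine Finset.sum_congr rfl fun i _ => ?_
      beta_reduce
      rw [Algebra.smul_def, map_mul, ← IsScalarTower.algebraMap_apply k L E,
        ← IsScalarTower.algebraMap_apply k Ω E]
    | zero => exact ⟨0, map_zero _⟩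
    | add f g _ _ hf hg =>
      obtain ⟨w, hw⟩ := hf
      obtain ⟨w', hw'⟩ := hg
      exact ⟨w + w', by rw [map_add, hw, hw']⟩
    | smul c f _ hf =>
      obtain ⟨w, hw⟩ := hf
      exact ⟨c • w, by rw [map_smul, hw]⟩
  intro f hf
  obtain ⟨w, hw⟩ := hsurj f (hWU hf)
  have hmem : w ∈ W.comap T := by
    change T w ∈ W
    rw [hw]
    exact hf
  have h1 := descent (k := k) (W.comap T) (fun δ w hwW => by
    obtain ⟨D, hD⟩ := Pool.Agent.W797.RG.main k L Ω E bc δ
    have h2 := hW D δ hD (T w) hwW
    change T _ ∈ W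
    convert h2 using 1
    rw [hT, hT, Finsupp.sum_mapRange_index (by intro i; rw [map_zero, zero_mul]), Finsupp.sum,
      Finsupp.sum, map_sum]
    refine Finset.sum_congr rfl fun i _ => ?_
    rw [D.leibniz, D.map_algebraMap, smul_zero, zero_add, hD, smul_eq_mul, mul_comm]) _ w rfl hmem
  have h2 : ∀ w ∈ Submodule.span Ω {w | w ∈ W.comap T ∧ ∀ i, ∃ c : k, algebraMap k Ω c = w i},
      T w ∈ Submodule.span Ω {f | ∃ l, algebraMap L E l = f ∧ f ∈ W} := by
    intro w hw
    induction hw using Submodule.span_induction with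
    | mem w hw =>
      obtain ⟨hw1, hw2⟩ := hw
      choose c hc using hw2
      refine Submodule.subset_span ⟨∑ i ∈ w.support, algebraMap k L (c i) * b i, ?_, hw1⟩
      rw [hT, Finsupp.sum, map_sum]
      refine Finset.sum_congr rfl fun i _ => ?_
      rw [map_mul, ← IsScalarTower.algebraMap_apply k L E, ← hc,
        ← IsScalarTower.algebraMap_apply k Ω E]
    | zero => rw [map_zero]; exact Submodule.zero_mem _
    | add f g _ _ hf hg => rw [map_add]; exact Submodule.add_mem _ hf hg
    | smul c f _ hf => rw [map_smul]; exact Submodule.smul_mem _ _ hf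
  rw [← hw]
  exact h2 w h1

theorem U_mul {a b : E} (ha : a ∈ Submodule.span Ω (Set.range (algebraMap L E)))
    (hb : b ∈ Submodule.span Ω (Set.range (algebraMap L E))) :
    a * b ∈ Submodule.span Ω (Set.range (algebraMap L E)) := by
  have hs := adjoin_span (Ω := Ω) (S := Set.range (algebraMap L E)) ⟨1, map_one _⟩ (by
    rintro _ ⟨a, rfl⟩ _ ⟨b, rfl⟩
    exact ⟨a * b, map_mul _ _ _⟩)
  rw [← hs] at ha hb ⊢
  exact Subalgebra.mul_mem _ ha hb

/-- derivations which act on the constants preserve the span -/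
theorem U_der {D : Derivation L E E} {D0 : Ω → Ω}
    (hD : ∀ w, D (algebraMap Ω E w) = algebraMap Ω E (D0 w)) {a : E}
    (ha : a ∈ Submodule.span Ω (Set.range (algebraMap L E))) :
    D a ∈ Submodule.span Ω (Set.range (algebraMap L E)) := by
  induction ha using Submodule.span_induction with
  | mem a ha =>
    obtain ⟨l, rfl⟩ := ha
    rw [D.map_algebraMap]
    exact Submodule.zero_mem _
  | zero => rw [map_zero]; exact Submodule.zero_mem _
  | add a b _ _ ha hb => rw [map_add]; exact Submodule.add_mem _ ha hb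
  | smul c a h ha =>
    rw [Algebra.smul_def, D.leibniz, hD, smul_eq_mul, smul_eq_mul, ← Algebra.smul_def,
      mul_comm a, ← Algebra.smul_def]
    exact Submodule.add_mem _ (Submodule.smul_mem _ _ ha) (Submodule.smul_mem _ _ h)

/-- derivations over the constants which come from below preserve the span -/
theorem U_der' {D : Derivation Ω E E} {D0 : L → L}
    (hD : ∀ l, D (algebraMap L E l) = algebraMap L E (D0 l)) {a : E}
    (ha : a ∈ Submodule.span Ω (Set.range (algebraMap L E))) :
    D a ∈ Submodule.span Ω (Set.range (algebraMap L E)) := by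
  induction ha using Submodule.span_induction with
  | mem a ha =>
    obtain ⟨l, rfl⟩ := ha
    rw [hD]
    exact Submodule.subset_span ⟨_, rfl⟩
  | zero => rw [map_zero]; exact Submodule.zero_mem _
  | add a b _ _ ha hb => rw [map_add]; exact Submodule.add_mem _ ha hb
  | smul c a _ ha => rw [Derivation.map_smul]; exact Submodule.smul_mem _ _ ha

variable [IsAlgClosed k] [CharZero k] [IsFF k L] [IsAlgClosed Ω] [CharZero Ω] [IsFF Ω E]

/-- the derivation of `E` over `Ω` that extends a given derivation of `L` -/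
theorem exists_der_ext (bc : BC k L Ω E) {D0 : Derivation k L L} (hD0 : D0 ≠ 0) :
    ∃ D : Derivation Ω E E, D ≠ 0 ∧ ∀ l, D (algebraMap L E l) = algebraMap L E (D0 l) := by
  have _ := bc.towerL
  have _ := bc.towerO
  obtain ⟨x, hx⟩ := IsFF.exists_transcendental (k := k) (K := L)
  have hxE := bc_transc bc hx
  have h1 := der_ne_zero (der_ne (k := Ω) (K := E)) hxE
  have h2 := der_ne_zero hD0 hx
  have h3 : (algebraMap L E (D0 x)) ≠ 0 := (_root_.map_ne_zero _).2 h2
  obtain ⟨D, hD⟩ : ∃ D : Derivation Ω E E,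
    D = (algebraMap L E (D0 x) / der Ω E (algebraMap L E x)) • der Ω E := ⟨_, rfl⟩
  have hDx : D (algebraMap L E x) = algebraMap L E (D0 x) := by
    rw [hD, Derivation.smul_apply, smul_eq_mul, div_mul_cancel₀ _ h1]
  refine ⟨D, ?_, fun l => ?_⟩
  · intro h
    rw [h] at hDx
    exact h3 hDx.symm
  · obtain ⟨r, hr1, hr2⟩ := Pool.Agent.W619.PQ.ratio' (k := k) (E := L) (K := E) hx l
    have h4 := hr2 (D.restrictScalars k)
    rw [Derivation.coe_restrictScalars, hDx, ← map_mul] at h4
    rw [h4, hr1 D0]

/-- the derivation has no zeros and poles at the generic places -/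
theorem gen_vo (bc : BC k L Ω E) {D0 : Derivation k L L} (hD0 : D0 ≠ 0) {D : Derivation Ω E E}
    (hDne : D ≠ 0) (hD : ∀ l, D (algebraMap L E l) = algebraMap L E (D0 l)) (P : Place Ω E)
    (hP : ∀ l : L, P.ord (algebraMap L E l) = 0) : vo P D = 0 := by
  classical
  have _ := bc.towerL
  have _ := bc.towerO
  obtain ⟨x, hx⟩ := IsFF.exists_transcendental (k := k) (K := L)
  have hxE := bc_transc bc hx
  obtain ⟨a, ha⟩ := exists_const P (f := algebraMap L E x) (Or.inr (hP x).ge)
  have h1 : algebraMap L E x - algebraMap Ω E a ≠ 0 := by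
    intro h
    apply hxE
    rw [sub_eq_zero.1 h]
    exact isAlgebraic_algebraMap a
  have h2 := ha.resolve_left h1
  have h3 := (ord_der P hDne (f := algebraMap L E x - algebraMap Ω E a) (by omega)).2
  rw [map_sub, D.map_algebraMap, sub_zero, hD, hP] at h3
  obtain ⟨e, he⟩ : ∃ e : ℤ, e = P.ord (algebraMap L E x - algebraMap Ω E a) := ⟨_, rfl⟩
  rw [← he] at h2 h3
  have hUreg : ∀ u ∈ Submodule.span Ω (Set.range (algebraMap L E)), Ge P 0 u := by
    intro u hu
    induction hu using Submodule.span_induction with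
    | mem u hu =>
      obtain ⟨l, rfl⟩ := hu
      exact Or.inr (hP l).ge
    | zero => exact Ge.zero
    | add a b _ _ ha hb => exact ha.add hb
    | smul c a _ ha =>
      rw [Algebra.smul_def]
      simpa using (Ge.const (P := P) c).mul ha
  have key : ∀ (m : ℕ) (u : E), u ∈ Submodule.span Ω (Set.range (algebraMap L E)) → u ≠ 0 →
      P.ord u = m → e ∣ P.ord u := by
    intro m
    induction m using Nat.strong_induction_on with
    | _ m ih =>
    intro u hu hu0 hum
    by_cases hm : m = 0
    · rw [hum, hm]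
      simp
    · obtain ⟨h4, h5⟩ := ord_der P hDne (f := u) (by omega)
      have h6 := U_der' hD hu
      have h7 := (hUreg _ h6).resolve_left h4
      have h8 := ih (P.ord (D u)).toNat (by omega) (D u) h6 h4 (by omega)
      have h9 : P.ord u = P.ord (D u) + e := by omega
      rw [h9]
      exact dvd_add h8 (dvd_refl e)
  obtain ⟨s, hs0, hs⟩ := P.surj
  obtain ⟨a, ha, b, hb, hb0, hab⟩ := bc.gen s
  have ha0 : a ≠ 0 := by
    rintro rfl
    rw [zero_div] at hab
    exact hs0 hab
  have h4 := (hUreg a ha).resolve_left ha0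
  have h5 := (hUreg b hb).resolve_left hb0
  have h6 := key (P.ord a).toNat a ha ha0 (by omega)
  have h7 := key (P.ord b).toNat b hb hb0 (by omega)
  have h8 : e ∣ 1 := by
    rw [← hs, hab, P.ord_div ha0 hb0]
    exact dvd_sub h6 h7
  have h9 := Int.le_of_dvd one_pos h8
  omega

/-- the space of the regular differentials -/
noncomputable def RR (D : Derivation Ω E E) (hD : D ≠ 0) : Submodule Ω E :=
  LL (Pool.Agent.TH143.GE.DN D hD 1)

theorem mem_RR {D : Derivation Ω E E} {hD : D ≠ 0} {f : E} :
    f ∈ RR D hD ↔ f = 0 ∨ ∀ P : Place Ω E, vo P D ≤ P.ord f := by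
  unfold RR
  rw [Pool.Agent.TH143.GE.mem_DN]
  simp only [Nat.cast_one, one_mul]

/-- **Regular differentials of a constant field extension.** -/
theorem reg_bc (bc : BC k L Ω E) {D0 : Derivation k L L} (hD0 : D0 ≠ 0) {D : Derivation Ω E E}
    (hDne : D ≠ 0) (hD : ∀ l, D (algebraMap L E l) = algebraMap L E (D0 l)) {f : E}
    (hf : ∀ P : Place Ω E, vo P D ≤ P.ord f) :
    f ∈ Submodule.span Ω {g | ∃ l : L, algebraMap L E l = g ∧
      (l = 0 ∨ ∀ p : Place k L, vo p D0 ≤ p.ord l)} := by
  classical
  have _ := bc.towerL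
  have _ := bc.towerO
  obtain ⟨V, hV⟩ : ∃ V : Submodule Ω E, V = RR D hDne := ⟨_, rfl⟩
  obtain ⟨U, hU⟩ : ∃ U : Submodule Ω E, U = Submodule.span Ω (Set.range (algebraMap L E)) :=
    ⟨_, rfl⟩
  have hVfin : Module.Finite Ω V := by
    rw [hV]
    exact finDim_LL _
  -- stability
  have hstab : ∀ (D1 : Derivation L E E) (D2 : Derivation k Ω Ω),
      (∀ w, D1 (algebraMap Ω E w) = algebraMap Ω E (D2 w)) → ∀ f ∈ V, D1 f ∈ V := by
    intro D1 D2 hD1 f hf
    rw [hV, mem_RR] at hf ⊢
    rcases hf with hf | hf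
    · left
      rw [hf, map_zero]
    · by_cases h0 : D1 f = 0
      · exact Or.inl h0
      right
      intro P
      by_cases hP : ∃ l : L, P.ord (algebraMap L E l) ≠ 0
      · exact (hf P).trans (Pool.Agent.W215.RG.RGC.main k L Ω E bc D1 D2 hD1 P hP f h0)
      · push Not at hP
        have h1 := gen_vo bc hD0 hDne hD P hP
        have h2 := hf P
        rw [h1] at h2 ⊢
        rcases Pool.Agent.W440.RG.RGM.main k L Ω E bc D1 D2 hD1 P hP with h3 | h3
        · exact h2.trans (h3 f h0)
        · exact h3.2.1 f h2 h0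
  -- the denominators
  let I : Submodule Ω E :=
    { carrier := {u | u ∈ U ∧ ∀ v ∈ V, u * v ∈ U}
      add_mem' := fun {a b} ha hb => ⟨U.add_mem ha.1 hb.1, fun v hv => by
        rw [add_mul]
        exact U.add_mem (ha.2 v hv) (hb.2 v hv)⟩
      zero_mem' := ⟨U.zero_mem, fun v _ => by
        rw [zero_mul]
        exact U.zero_mem⟩
      smul_mem' := fun c a ha => ⟨U.smul_mem c ha.1, fun v hv => by
        rw [smul_mul_assoc]
        exact U.smul_mem c (ha.2 v hv)⟩ }
  have hIstab : ∀ (D1 : Derivation L E E) (D2 : Derivation k Ω Ω),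
      (∀ w, D1 (algebraMap Ω E w) = algebraMap Ω E (D2 w)) → ∀ f ∈ I, D1 f ∈ I := by
    intro D1 D2 hD1 u hu
    have h1 : D1 u ∈ U := by
      have := hu.1
      rw [hU] at this ⊢
      exact U_der hD1 this
    refine ⟨h1, fun v hv => ?_⟩
    have h2 : D1 u * v = D1 (u * v) - u * D1 v := by
      rw [D1.leibniz, smul_eq_mul, smul_eq_mul]
      ring
    rw [h2]
    refine U.sub_mem ?_ (hu.2 _ (hstab D1 D2 hD1 v hv))
    have := hu.2 v hv
    rw [hU] at this ⊢
    exact U_der hD1 this
  have hIspan := descentU bc I (fun u hu => by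
    have := hu.1
    rwa [hU] at this) hIstab
  -- there is a nonzero denominator
  obtain ⟨b, hb0, hbI⟩ : ∃ b : E, b ≠ 0 ∧ b ∈ I := by
    obtain ⟨S, hS⟩ := (Module.Finite.iff_fg.1 hVfin : V.FG)
    have hgen : ∀ s : E, ∃ b ∈ U, b ≠ 0 ∧ b * s ∈ U := by
      intro s
      obtain ⟨a, ha, b, hb, hb0, hab⟩ := bc.gen s
      rw [← hU] at ha hb
      refine ⟨b, hb, hb0, ?_⟩
      rw [hab, mul_div_cancel₀ _ hb0]
      exact ha
    choose d hd1 hd2 hd3 using hgen
    have hone : (1 : E) ∈ U := by
      rw [hU]
      exact Submodule.subset_span ⟨1, map_one _⟩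
    have hmulU : ∀ a ∈ U, ∀ b ∈ U, a * b ∈ U := by
      intro a ha b hb
      rw [hU] at ha hb ⊢
      exact U_mul ha hb
    have hprod : ∀ T : Finset E, ∏ s ∈ T, d s ∈ U := by
      intro T
      induction T using Finset.induction_on with
      | empty => rw [Finset.prod_empty]; exact hone
      | insert a T ha ih =>
        rw [Finset.prod_insert ha]
        exact hmulU _ (hd1 a) _ ih
    refine ⟨∏ s ∈ S, d s, Finset.prod_ne_zero_iff.2 fun s _ => hd2 s, hprod S, fun v hv => ?_⟩
    rw [← hS] at hv
    induction hv using Submodule.span_induction with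
    | mem v hv =>
      rw [← Finset.prod_erase_mul S d hv, mul_assoc]
      exact hmulU _ (hprod _) _ (hd3 v)
    | zero => rw [mul_zero]; exact U.zero_mem
    | add a b _ _ ha hb => rw [mul_add]; exact U.add_mem ha hb
    | smul c a _ ha => rw [mul_smul_comm]; exact U.smul_mem _ ha
  obtain ⟨l, hl0, hlI⟩ : ∃ l : L, l ≠ 0 ∧ algebraMap L E l ∈ I := by
    by_contra hcon
    push Not at hcon
    have h1 : Submodule.span Ω {f | ∃ l, algebraMap L E l = f ∧ f ∈ I} ≤ ⊥ := by
      rw [Submodule.span_le]
      rintro _ ⟨l, rfl, hl⟩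
      by_cases hl0 : l = 0
      · rw [hl0, map_zero]
        exact Submodule.zero_mem _
      · exact absurd hl (hcon l hl0)
    exact hb0 ((Submodule.mem_bot Ω).1 (h1 (hIspan hbI)))
  have hVU : V ≤ U := by
    intro v hv
    have h1 := hlI.2 v hv
    have hlE : algebraMap L E l ≠ 0 := (_root_.map_ne_zero _).2 hl0
    have h2 : v = algebraMap L E l⁻¹ * (algebraMap L E l * v) := by
      rw [map_inv₀, inv_mul_cancel_left₀ hlE]
    rw [h2]
    rw [hU] at h1 ⊢
    exact U_mul (Submodule.subset_span ⟨_, rfl⟩) h1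
  have hfV : f ∈ V := by
    rw [hV, mem_RR]
    exact Or.inr hf
  have h1 := descentU bc V (by rwa [hU] at hVU) hstab hfV
  refine Submodule.span_mono ?_ h1
  rintro _ ⟨l, rfl, hl⟩
  refine ⟨l, rfl, ?_⟩
  rw [hV, mem_RR, _root_.map_eq_zero] at hl
  rcases hl with hl | hl
  · exact Or.inl hl
  right
  intro p
  obtain ⟨P, e, he, hPe⟩ := exists_place_over bc p
  have h2 := hl P
  rw [hPe] at h2
  obtain ⟨π, hπ0, hπ⟩ := p.surj
  have h3 := (ord_der P hDne (f := algebraMap L E π) (by rw [hPe, hπ]; omega)).2
  rw [hD, hPe, hPe, hπ, vo_eq p hπ hD0] at h3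
  have h4 : (e : ℤ) * vo p D0 ≤ e * p.ord l + (e - 1) := by linarith
  by_contra hcon
  push Not at hcon
  have h5 : (e : ℤ) * (p.ord l + 1) ≤ e * vo p D0 :=
    mul_le_mul_of_nonneg_left (by omega) (by positivity)
  nlinarith

end

end Pool.Agent.Helper11K9.PC
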