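import Pool.Agent.Helper11K9.PC.Trc

/-!
Traces of exterior products of regular differentials: the descending recursion.
-/

set_option autoImplicit false
set_option linter.overlappingInstances false
set_option linter.unusedSectionVars false

open Polynomial FF IntermediateField

namespace Pool.Agent.Helper11K9.PC

open Pool.Agent.W603.LV Pool.Agent.W619.PQ

section

variable {k F : Type} [Field k] [Field F] [Algebra k F] [CharZero k] [IsFF k F] [IsAlgClosed k]

/-- curves of gonality at least two have nonzero regular differentials -/
theorem exists_regD {D : Derivation k F F} (hD : D ≠ 0)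
    (hgon : ∀ t : F, Transcendental k t → 1 < Module.finrank k⟮t⟯ F) : ∃ f, RegD D f := by
  obtain ⟨P, -⟩ := exists_place_not_mem (k := k) (K := F) ∅
  obtain ⟨f, h1, h2, -, -⟩ := exists_separating hD ∅ P (by simp) (by simpa using hgon)
  exact ⟨f, h1, h2⟩

end

section

variable {k K : Type} [Field k] [Field K] [Algebra k K] [CharZero k] [IsAlgClosed k] {n : ℕ}
  (F : Fin n → IntermediateField k K) [∀ i, IsFF k (F i)] (D : ∀ i, Derivation k (F i) (F i))

/-- the traces to `E` of the products of `J` and of regular differentials on the curves `F i`,
`i ∈ S`, are zero -/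
def TrZ (J : K) (S : Finset (Fin n)) (E : IntermediateField k K) : Prop :=
  ∀ f : ∀ i, F i, (∀ i ∈ S, RegD (D i) (f i)) → Algebra.trace E K (J * ∏ i ∈ S, (f i : K)) = 0

variable {F D}

theorem gen_in {E : IntermediateField k K} (F0 : IntermediateField k K)
    (τ : F0 →ₐ[k] IntermediateField.adjoin E (F0 : Set K)) (hτ : ∀ f, ((τ f : _) : K) = f) :
    IntermediateField.adjoin E (Set.range τ) = ⊤ := by
  apply IntermediateField.map_injective (IntermediateField.adjoin E (F0 : Set K)).val
  rw [IntermediateField.adjoin_map, ← AlgHom.fieldRange_eq_map, IntermediateField.fieldRange_val]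
  congr 1
  ext y
  constructor
  · rintro ⟨_, ⟨f, rfl⟩, rfl⟩
    change ((τ f : _) : K) ∈ _
    rw [hτ]
    exact f.2
  · intro hy
    exact ⟨_, ⟨⟨y, hy⟩, rfl⟩, hτ _⟩

/-- **The descending step.** -/
theorem step {J : K} {S : Finset (Fin n)} {E : IntermediateField k K} [FiniteDimensional E K]
    (hT : TrZ F D J S E) {i : Fin n} (hi : i ∈ S) (hD : D i ≠ 0)
    (hgon : ∀ t : F i, Transcendental k t →
      Module.finrank E (IntermediateField.adjoin E (F i : Set K)) < Module.finrank k⟮t⟯ (F i)) :
    TrZ F D J (S.erase i) ((IntermediateField.adjoin E (F i : Set K)).restrictScalars k) := by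
  classical
  intro f hf
  obtain ⟨M, hM⟩ : ∃ M : IntermediateField E K, M = IntermediateField.adjoin E (F i : Set K) :=
    ⟨_, rfl⟩
  have hle : ∀ g : F i, (g : K) ∈ IntermediateField.adjoin E (F i : Set K) := fun g =>
    IntermediateField.subset_adjoin E _ g.2
  let τ : F i →ₐ[k] IntermediateField.adjoin E (F i : Set K) :=
    { toFun := fun g => ⟨(g : K), hle g⟩
      map_one' := Subtype.ext rfl
      map_mul' := fun a b => Subtype.ext rfl
      map_zero' := Subtype.ext rfl
      map_add' := fun a b => Subtype.ext rfl
      commutes' := fun c => Subtype.ext rfl }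
  have h1 : Algebra.trace (IntermediateField.adjoin E (F i : Set K)) K
      (J * ∏ l ∈ S.erase i, (f l : K)) = 0 := by
    refine c_one hD τ (gen_in (F i) τ fun f => rfl) hgon fun g hg => ?_
    have h2 := hT (Function.update f i g) fun l hl => by
      by_cases hli : l = i
      · subst hli
        rw [Function.update_self]
        exact hg
      · rw [Function.update_of_ne hli]
        exact hf l (Finset.mem_erase.2 ⟨hli, hl⟩)
    rw [← Finset.mul_prod_erase _ _ hi, Function.update_self] at h2
    have h3 : ∏ l ∈ S.erase i, ((Function.update f i g l : F l) : K) =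
        ∏ l ∈ S.erase i, (f l : K) :=
      Finset.prod_congr rfl fun l hl => by
        rw [Function.update_of_ne (Finset.ne_of_mem_erase hl)]
    rw [h3] at h2
    have h4 : J * ((g : K) * ∏ l ∈ S.erase i, (f l : K)) =
        τ g • (J * ∏ l ∈ S.erase i, (f l : K)) := by
      rw [Algebra.smul_def]
      change _ = (g : K) * _
      ring
    rw [h4, ← Algebra.trace_trace (S := IntermediateField.adjoin E (F i : Set K)), map_smul,
      smul_eq_mul] at h2
    exact h2
  have h2 : ((Algebra.trace (IntermediateField.adjoin E (F i : Set K)) K
      (J * ∏ l ∈ S.erase i, (f l : K)) : IntermediateField.adjoin E (F i : Set K)) : K) = 0 := by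
    rw [h1]
    rfl
  exact Subtype.ext h2

/-- **The recursion.** -/
theorem rec_main (hD : ∀ i, D i ≠ 0) (hsup : ⨆ i, F i = ⊤) {γ : Fin n → ℕ}
    (hγ : ∀ i (t : F i), Transcendental k t → γ i ≤ Module.finrank k⟮t⟯ (F i)) {J : K}
    (hJ : J ≠ 0) {r : ℕ} (hr : ∀ i j, i ≠ j → r + 3 ≤ γ i + γ j) :
    ∀ (m : ℕ) (S : Finset (Fin n)) (E : IntermediateField k K), S.card = m →
      FiniteDimensional E K → Module.finrank E K ≤ r → (∀ j, j ∉ S → F j ≤ E ∧ 2 ≤ γ j) →
      TrZ F D J S E →
      ∃ (i : Fin n) (E' : IntermediateField k K), E ≤ E' ∧ FiniteDimensional E' K ∧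
        (∀ j, j ≠ i → F j ≤ E' ∧ 2 ≤ γ j) ∧ TrZ F D J {i} E' := by
  classical
  intro m
  induction m with
  | zero =>
    intro S E hS hfin hle hFE hT
    exfalso
    rw [Finset.card_eq_zero] at hS
    subst hS
    have hE : E = ⊤ := by
      rw [← top_le_iff, ← hsup, iSup_le_iff]
      exact fun j => (hFE j (Finset.notMem_empty j)).1
    have h1 := hT (fun _ => 0) (fun i hi => absurd hi (Finset.notMem_empty i))
    rw [Finset.prod_empty, mul_one] at h1
    obtain ⟨J', hJ'⟩ : ∃ J' : E, algebraMap E K J' = J := ⟨⟨J, hE ▸ trivial⟩, rfl⟩
    rw [← hJ', Algebra.trace_algebraMap] at h1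
    have hE0 : CharZero E := charZero_of_injective_algebraMap (algebraMap k E).injective
    rw [nsmul_eq_mul, mul_eq_zero] at h1
    rcases h1 with h1 | h1
    · exact Module.finrank_pos.ne' (Nat.cast_eq_zero.1 h1)
    · apply hJ
      rw [← hJ', h1, map_zero]
  | succ m ih =>
    intro S E hS hfin hle hFE hT
    by_cases hm : m = 0
    · subst hm
      obtain ⟨i, rfl⟩ := Finset.card_eq_one.1 hS
      exact ⟨i, E, le_rfl, hfin, fun j hj => hFE j (by simpa using hj), hT⟩
    · by_cases hred : ∃ i ∈ S, Module.finrank E (IntermediateField.adjoin E (F i : Set K)) < γ i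
      · obtain ⟨i, hi, hlt⟩ := hred
        have h1 := step hT hi (hD i) fun t ht => lt_of_lt_of_le hlt (hγ i t ht)
        have hEle : E ≤ (IntermediateField.adjoin E (F i : Set K)).restrictScalars k := by
          intro e he
          exact (IntermediateField.adjoin E (F i : Set K)).algebraMap_mem ⟨e, he⟩
        have hfin' : FiniteDimensional (IntermediateField.adjoin E (F i : Set K)) K :=
          inferInstance
        have hmul := Module.finrank_mul_finrank E (IntermediateField.adjoin E (F i : Set K)) K
        have hpos : 0 < Module.finrank E (IntermediateField.adjoin E (F i : Set K)) :=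
          Module.finrank_pos
        have hle' : Module.finrank (IntermediateField.adjoin E (F i : Set K)) K ≤ r := by
          refine le_trans ?_ hle
          rw [← hmul]
          exact Nat.le_mul_of_pos_left _ hpos
        obtain ⟨i', E', h2, h3, h4, h5⟩ := ih (S.erase i)
          ((IntermediateField.adjoin E (F i : Set K)).restrictScalars k)
          (by rw [Finset.card_erase_of_mem hi, hS]; rfl) hfin' hle' (fun j hj => by
            by_cases hji : j = i
            · subst hji
              exact ⟨fun z hz => IntermediateField.subset_adjoin E _ hz, by omega⟩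
            · have h2 := hFE j fun h => hj (Finset.mem_erase.2 ⟨hji, h⟩)
              exact ⟨h2.1.trans hEle, h2.2⟩) h1
        exact ⟨i', E', hEle.trans h2, h3, h4, h5⟩
      · push Not at hred
        exfalso
        have hfr : ∀ i ∈ S, γ i ≤ r := by
          intro i hi
          refine (hred i hi).trans (le_trans ?_ hle)
          rw [← Module.finrank_mul_finrank E (IntermediateField.adjoin E (F i : Set K)) K]
          exact Nat.le_mul_of_pos_right _ Module.finrank_pos
        obtain ⟨i, hi, j, hj, hij⟩ := Finset.one_lt_card.1 (show 1 < S.card by omega)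
        have hrange : ∀ l, Set.range (F l).val = (F l : Set K) := by
          intro l
          ext z
          constructor
          · rintro ⟨z, rfl⟩
            exact z.2
          · intro hz
            exact ⟨⟨z, hz⟩, rfl⟩
        have hij3 := hr i j hij
        have hγi := hfr i hi
        have hγj := hfr j hj
        have hgon : ∀ l (d : ℕ), d < γ l → ∀ t : F l, Transcendental k t →
            d < Module.finrank k⟮t⟯ (F l) := fun l d hd t ht => lt_of_lt_of_le hd (hγ l t ht)
        have hex : ∀ l, ∃ f : F l, l ∈ (S.erase i).erase j → RegD (D l) f := by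
          intro l
          by_cases hl : l ∈ (S.erase i).erase j
          · have hli : l ≠ i := Finset.ne_of_mem_erase (Finset.mem_of_mem_erase hl)
            have h1 := hr l i hli
            obtain ⟨f, hf⟩ := exists_regD (hD l) (hgon l 1 (by omega))
            exact ⟨f, fun _ => hf⟩
          · exact ⟨0, fun h => absurd h hl⟩
        choose f hf using hex
        have hjS : j ∈ S.erase i := Finset.mem_erase.2 ⟨hij.symm, hj⟩
        have h0 := c_two (E := E) (M := K) (hD i) (hD j) (F i).val (F j).val
          (d₁ := γ i - 1) (d₂ := γ j - 1)
          (by rw [hrange]; have := hred i hi; omega) (by rw [hrange]; have := hred j hj; omega)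
          (hgon i _ (by omega)) (hgon j _ (by omega)) (by omega)
          (c := J * ∏ l ∈ (S.erase i).erase j, (f l : K)) (fun f₁ f₂ h₁ h₂ => by
            have h2 := hT (Function.update (Function.update f i f₁) j f₂) fun l hl => by
              by_cases hlj : l = j
              · subst hlj
                rw [Function.update_self]
                exact h₂
              · rw [Function.update_of_ne hlj]
                by_cases hli : l = i
                · subst hli
                  rw [Function.update_self]
                  exact h₁
                · rw [Function.update_of_ne hli]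
                  exact hf l (Finset.mem_erase.2 ⟨hlj, Finset.mem_erase.2 ⟨hli, hl⟩⟩)
            rw [← Finset.mul_prod_erase _ _ hi, Function.update_of_ne hij, Function.update_self,
              ← Finset.mul_prod_erase _ _ hjS, Function.update_self] at h2
            have h3 : ∏ l ∈ (S.erase i).erase j,
                ((Function.update (Function.update f i f₁) j f₂ l : F l) : K) =
                ∏ l ∈ (S.erase i).erase j, (f l : K) :=
              Finset.prod_congr rfl fun l hl => by
                rw [Function.update_of_ne (Finset.ne_of_mem_erase hl),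
                  Function.update_of_ne (Finset.ne_of_mem_erase (Finset.mem_of_mem_erase hl))]
            rw [h3] at h2
            rw [← h2]
            congr 1
            change _ * ((f₁ : K) * (f₂ : K)) = _
            ring)
        rcases mul_eq_zero.1 h0 with h0 | h0
        · exact hJ h0
        · rw [Finset.prod_eq_zero_iff] at h0
          obtain ⟨l, hl, h0⟩ := h0
          exact (hf l hl).1 (Subtype.ext h0)

end

end Pool.Agent.Helper11K9.PC
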