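import Pool.Agent.W619.PQ.Genus
import Pool.Agent.W215.RG.ISF
import Pool.Agent.TH145.GF.Ext
import Pool.Agent.Helper386.D5V.Helper399_FF4a

/-!
Constant field extensions of function fields of curves: linear disjointness and places.
-/

set_option autoImplicit false
set_option linter.overlappingInstances false
set_option linter.unusedSectionVars false

open FF

namespace Pool.Agent.Helper11K9.PC

open Pool.Agent.W603.LV Pool.Agent.W602.RG

section

variable {k L Ω E : Type} [Field k] [Field L] [Field Ω] [Field E] [Algebra k L]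
    [Algebra k Ω] [Algebra k E] [Algebra L E] [Algebra Ω E] [IsScalarTower k L E]
    [IsScalarTower k Ω E]

/-- a place over a larger field of constants -/
noncomputable def toK (P : Place Ω E) : Place k E where
  ord := P.ord
  ord_zero := P.ord_zero
  ord_mul := P.ord_mul
  ord_add := P.ord_add
  ord_const := by
    intro c hc
    rw [IsScalarTower.algebraMap_apply k Ω E]
    exact P.ord_const ((_root_.map_ne_zero _).2 hc)
  surj := P.surj

/-- the restriction of a place -/
theorem restr' (P : Place Ω E) (hP : ∃ l : L, P.ord (algebraMap L E l) ≠ 0) :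
    ∃ (p : Place k L) (e : ℕ), 0 < e ∧ ∀ l : L, P.ord (algebraMap L E l) = e * p.ord l := by
  obtain ⟨e, p, h1, h2⟩ := FF.exists_over (K := L) (toK (k := k) P) hP
  exact ⟨p, e, h1, h2⟩

/-- linear disjointness from one place -/
theorem ld_of_over [IsAlgClosed k] [CharZero k] [IsFF k L] {p : Place k L} {P : Place Ω E} {e : ℕ}
    (he : 0 < e) (hP : ∀ l : L, P.ord (algebraMap L E l) = e * p.ord l) :
    ∀ (m : ℕ) (S : Finset ℕ), S.card = m → ∀ v : ℕ → L,
      (∀ c : ℕ → k, ∑ i ∈ S, algebraMap k L (c i) * v i = 0 → ∀ i ∈ S, c i = 0) →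
      ∀ w : ℕ → Ω, ∑ i ∈ S, algebraMap Ω E (w i) * algebraMap L E (v i) = 0 →
      ∀ i ∈ S, w i = 0 := by
  classical
  have hne : ∀ {l : L}, l ≠ 0 → algebraMap L E l ≠ 0 := fun h => (_root_.map_ne_zero _).2 h
  intro m
  induction m with
  | zero =>
    intro S hS v _ w _ i hi
    rw [Finset.card_eq_zero] at hS
    rw [hS] at hi
    exact absurd hi (Finset.notMem_empty i)
  | succ m ih =>
    intro S hS v hv w hw
    have hv0 : ∀ i ∈ S, v i ≠ 0 := by
      intro i hi h0
      have h1 := hv (fun l => if l = i then 1 else 0) (by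
        refine Finset.sum_eq_zero fun l _ => ?_
        by_cases h : l = i
        · rw [h, h0, mul_zero]
        · rw [if_neg h, map_zero, zero_mul]) i hi
      rw [if_pos rfl] at h1
      exact one_ne_zero h1
    obtain ⟨i0, hi0, hmin⟩ := Finset.exists_min_image S (fun i => p.ord (v i))
      (Finset.card_pos.1 (by omega))
    have hc : ∀ i, ∃ c : k, i ∈ S → Ge p (p.ord (v i0) + 1) (v i - algebraMap k L c * v i0) := by
      intro i
      by_cases his : i ∈ S
      swap
      · exact ⟨0, fun h => absurd h his⟩
      have h1 : Ge p 0 (v i / v i0) := by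
        right
        rw [p.ord_div (hv0 i his) (hv0 i0 hi0)]
        have := hmin i his
        omega
      obtain ⟨c, hc⟩ := exists_const p h1
      refine ⟨c, fun _ => ?_⟩
      have h2 : Ge p (p.ord (v i0)) (v i0) := Or.inr le_rfl
      have h3 := h2.mul hc
      have h4 : v i0 * (v i / v i0 - algebraMap k L c) = v i - algebraMap k L c * v i0 := by
        have := hv0 i0 hi0
        field_simp
      rwa [h4] at h3
    choose c hc using hc
    obtain ⟨W, hW⟩ : ∃ W : Ω, W = w i0 + ∑ i ∈ S.erase i0, w i * algebraMap k Ω (c i) := ⟨_, rfl⟩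
    have hsplit : algebraMap Ω E W * algebraMap L E (v i0) +
        ∑ i ∈ S.erase i0, algebraMap Ω E (w i) *
          algebraMap L E (v i - algebraMap k L (c i) * v i0) = 0 := by
      rw [← hw, ← Finset.add_sum_erase S _ hi0, hW, map_add, add_mul, add_assoc, map_sum,
        Finset.sum_mul, ← Finset.sum_add_distrib]
      congr 1
      refine Finset.sum_congr rfl fun i _ => ?_
      rw [map_mul, map_sub, map_mul, ← IsScalarTower.algebraMap_apply k L E,
        ← IsScalarTower.algebraMap_apply k Ω E]
      ring
    have hW0 : W = 0 := by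
      by_contra hW0
      have hWE : algebraMap Ω E W ≠ 0 := (_root_.map_ne_zero _).2 hW0
      have ho : P.ord (algebraMap Ω E W * algebraMap L E (v i0)) = e * p.ord (v i0) := by
        rw [P.ord_mul hWE (hne (hv0 i0 hi0)), P.ord_const hW0, zero_add, hP]
      have hr : Ge P (e * p.ord (v i0) + 1) (∑ i ∈ S.erase i0, algebraMap Ω E (w i) *
          algebraMap L E (v i - algebraMap k L (c i) * v i0)) := by
        refine Ge.sum _ _ fun i hi => ?_
        have h0 : Ge P (e * p.ord (v i0) + 1)
            (algebraMap L E (v i - algebraMap k L (c i) * v i0)) := by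
          rcases hc i (Finset.mem_of_mem_erase hi) with h | h
          · left
            rw [h, map_zero]
          · right
            rw [hP]
            have : (1 : ℤ) ≤ e := by exact_mod_cast he
            nlinarith
        have h1 := (Ge.const (P := P) (w i)).mul h0
        rwa [zero_add] at h1
      have h2 : algebraMap Ω E W * algebraMap L E (v i0) =
          -∑ i ∈ S.erase i0, algebraMap Ω E (w i) *
          algebraMap L E (v i - algebraMap k L (c i) * v i0) := by
        linear_combination hsplit
      have h3 := hr.neg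
      rw [← h2] at h3
      have h4 := h3.resolve_left (mul_ne_zero hWE (hne (hv0 i0 hi0)))
      rw [ho] at h4
      omega
    rw [hW0, map_zero, zero_mul, zero_add] at hsplit
    have h1 := ih (S.erase i0) (by rw [Finset.card_erase_of_mem hi0, hS]; rfl)
      (fun i => v i - algebraMap k L (c i) * v i0) (fun d hd => by
        have h2 := hv (fun l => if l = i0 then -∑ i ∈ S.erase i0, d i * c i else d l) (by
          rw [← Finset.add_sum_erase S _ hi0, if_pos rfl]
          have h3 : ∑ i ∈ S.erase i0, algebraMap k L (if i = i0 then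
              -∑ i ∈ S.erase i0, d i * c i else d i) * v i =
              ∑ i ∈ S.erase i0, algebraMap k L (d i) * v i :=
            Finset.sum_congr rfl fun i hi => by rw [if_neg (Finset.ne_of_mem_erase hi)]
          rw [h3, map_neg, map_sum, neg_mul, Finset.sum_mul, ← hd, ← Finset.sum_neg_distrib,
            ← Finset.sum_add_distrib]
          refine Finset.sum_congr rfl fun i _ => ?_
          rw [map_mul]
          ring)
        intro i hi
        have h4 := h2 i (Finset.mem_of_mem_erase hi)
        rwa [if_neg (Finset.ne_of_mem_erase hi)] at h4) w hsplit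
    intro i hi
    by_cases hii : i = i0
    · have h2 : ∑ i ∈ S.erase i0, w i * algebraMap k Ω (c i) = 0 :=
        Finset.sum_eq_zero fun i hi => by rw [h1 i hi, zero_mul]
      rw [h2, add_zero] at hW
      rw [hii, ← hW, hW0]
    · exact h1 i (Finset.mem_erase.2 ⟨hii, hi⟩)

/-- the subalgebra generated by a multiplicative set is its span -/
theorem adjoin_span {S : Set E} (h1 : (1 : E) ∈ S) (h2 : ∀ a ∈ S, ∀ b ∈ S, a * b ∈ S) :
    Subalgebra.toSubmodule (Algebra.adjoin Ω S) = Submodule.span Ω S := by
  rw [Algebra.adjoin_eq_span]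
  congr 1
  let M : Submonoid E := ⟨⟨S, fun {a b} ha hb => h2 a ha b hb⟩, h1⟩
  exact congrArg (fun M : Submonoid E => (M : Set E)) (Submonoid.closure_eq M)

/-- **Constant field extensions.** -/
theorem bc_mk [IsAlgClosed k] [CharZero k] [IsFF k L] [CharZero Ω] [IsFF Ω E] {x : L}
    (hx : Transcendental Ω (algebraMap L E x))
    (hgen : IntermediateField.adjoin Ω (Set.range (algebraMap L E)) = ⊤) : BC k L Ω E := by
  classical
  refine ⟨inferInstance, inferInstance, ?_, ?_⟩
  · intro m v hv
    obtain ⟨Z, hZ, hZ2⟩ := poles (k := Ω) (K := E) hx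
    have hfin := IsFF.finite hx
    have hZne : Z.Nonempty := by
      by_contra hcon
      rw [Finset.not_nonempty_iff_eq_empty] at hcon
      rw [hcon, Finset.sum_empty] at hZ2
      exact Module.finrank_pos.ne hZ2
    obtain ⟨P, hP⟩ := hZne
    rw [hZ] at hP
    obtain ⟨p, e, he, hPe⟩ := restr' (k := k) (L := L) P ⟨x, hP.ne⟩
    rw [Fintype.linearIndependent_iff]
    intro w hw i
    have h1 := ld_of_over he hPe m (Finset.range m) (Finset.card_range m)
      (fun j => if h : j < m then v ⟨j, h⟩ else 0) (fun c hc j hj => by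
        rw [Finset.sum_range] at hc
        rw [Fintype.linearIndependent_iff] at hv
        rw [Finset.mem_range] at hj
        refine hv (fun j => c j) ?_ ⟨j, hj⟩
        rw [← hc]
        refine Finset.sum_congr rfl fun l _ => ?_
        rw [dif_pos l.2, Algebra.smul_def])
      (fun j => if h : j < m then w ⟨j, h⟩ else 0) (by
        rw [Finset.sum_range, ← hw]
        refine Finset.sum_congr rfl fun l _ => ?_
        rw [dif_pos l.2, dif_pos l.2, Algebra.smul_def]) i (Finset.mem_range.2 i.2)
    rwa [dif_pos i.2] at h1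
  · intro z
    have h1 : z ∈ IntermediateField.adjoin Ω (Set.range (algebraMap L E)) := by
      rw [hgen]
      trivial
    rw [IntermediateField.mem_adjoin_iff_div] at h1
    obtain ⟨a, ha, b, hb, hab⟩ := h1
    have h2 : ∀ a ∈ Algebra.adjoin Ω (Set.range (algebraMap L E)),
        a ∈ Submodule.span Ω (Set.range (algebraMap L E)) := by
      intro a ha
      have hs := adjoin_span (Ω := Ω) (S := Set.range (algebraMap L E)) ⟨1, map_one _⟩ (by
        rintro _ ⟨a, rfl⟩ _ ⟨b, rfl⟩
        exact ⟨a * b, map_mul _ _ _⟩)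
      rw [← hs]
      exact ha
    by_cases hb0 : b = 0
    · refine ⟨0, Submodule.zero_mem _, 1, Submodule.subset_span ⟨1, map_one _⟩, one_ne_zero, ?_⟩
      rw [hab, hb0, div_zero, zero_div]
    · exact ⟨a, h2 a ha, b, h2 b hb, hb0, hab⟩

/-- the image of a transcendental element is transcendental -/
theorem bc_transc (bc : BC k L Ω E) {x : L} (hx : Transcendental k x) :
    Transcendental Ω (algebraMap L E x) := by
  refine Pool.Agent.W215.RG.ISF.trans_of_li fun m => ?_
  have h1 := bc.ld m _ (Pool.Agent.W215.RG.ISF.li_pow hx m)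
  simpa only [map_pow] using h1

/-- **Places over a given place.** -/
theorem exists_place_over [IsAlgClosed k] [CharZero k] [IsFF k L] [CharZero Ω] [IsFF Ω E]
    (bc : BC k L Ω E) (p : Place k L) :
    ∃ (P : Place Ω E) (e : ℕ), 0 < e ∧ ∀ l : L, P.ord (algebraMap L E l) = e * p.ord l := by
  classical
  let O : Set E := algebraMap L E '' {l | Ge p 0 l}
  let m : Set E := algebraMap L E '' {l | Ge p 1 l}
  let A : Subalgebra Ω E := Algebra.adjoin Ω O
  have hA : ∀ a ∈ A, a ∈ Submodule.span Ω O := by
    intro a ha
    have hs := adjoin_span (Ω := Ω) (S := O) ⟨1, Or.inr p.ord_one.ge, map_one _⟩ (by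
      rintro _ ⟨a, ha, rfl⟩ _ ⟨b, hb, rfl⟩
      refine ⟨a * b, ?_, map_mul _ _ _⟩
      have := Ge.mul ha hb
      simpa using this)
    rw [← hs]
    exact ha
  have hmul : ∀ a ∈ Submodule.span Ω O, ∀ b ∈ Submodule.span Ω m, a * b ∈ Submodule.span Ω m := by
    intro a ha
    induction ha using Submodule.span_induction with
    | mem a ha =>
      obtain ⟨l, hl, rfl⟩ := ha
      intro b hb
      induction hb using Submodule.span_induction with
      | mem b hb =>
        obtain ⟨l', hl', rfl⟩ := hb
        refine Submodule.subset_span ⟨l * l', ?_, map_mul _ _ _⟩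
        have := Ge.mul hl hl'
        simpa using this
      | zero => rw [mul_zero]; exact Submodule.zero_mem _
      | add a b _ _ ha hb => rw [mul_add]; exact Submodule.add_mem _ ha hb
      | smul c a _ ha => rw [mul_smul_comm]; exact Submodule.smul_mem _ _ ha
    | zero =>
      intro b _
      rw [zero_mul]; exact Submodule.zero_mem _
    | add a a' _ _ ha ha' =>
      intro b hb
      rw [add_mul]; exact Submodule.add_mem _ (ha b hb) (ha' b hb)
    | smul c a _ ha =>
      intro b hb
      rw [smul_mul_assoc]; exact Submodule.smul_mem _ _ (ha b hb)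
  have h1 : (1 : E) ∉ Submodule.span Ω m := by
    intro h1
    obtain ⟨T, hT, h1⟩ := Submodule.mem_span_finite_of_mem_span h1
    have hT' : ∀ a : E, ∃ l : L, a ∈ T → Ge p 1 l ∧ algebraMap L E l = a := by
      intro a
      by_cases ha : a ∈ T
      · obtain ⟨l, hl, hl'⟩ := hT ha
        exact ⟨l, fun _ => ⟨hl, hl'⟩⟩
      · exact ⟨0, fun h => absurd h ha⟩
    choose g hg using hT'
    let M : Submodule k L := Submodule.span k (g '' (T : Set E))
    have hMfin : Module.Finite k M := Module.Finite.span_of_finite k (T.finite_toSet.image g)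
    let b := Module.finBasis k M
    have hMge : ∀ y ∈ M, Ge p 1 y := by
      intro y hy
      induction hy using Submodule.span_induction with
      | mem y hy =>
        obtain ⟨t, ht, rfl⟩ := hy
        exact (hg t ht).1
      | zero => exact Ge.zero
      | add a b _ _ ha hb => exact ha.add hb
      | smul c a _ ha =>
        rw [Algebra.smul_def]
        simpa using (Ge.const (P := p) c).mul ha
    have hb : LinearIndependent k fun i => ((b i : M) : L) :=
      b.linearIndependent.map' M.subtype (Submodule.ker_subtype M)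
    have hspan : Submodule.span k (Set.range fun i => ((b i : M) : L)) ≤ M := by
      rw [Submodule.span_le]
      rintro _ ⟨i, rfl⟩
      exact (b i).2
    have h2 : LinearIndependent k (Fin.cons (1 : L) (fun i => ((b i : M) : L)) :
        Fin (Module.finrank k M + 1) → L) := by
      rw [linearIndependent_finCons]
      refine ⟨hb, fun h => ?_⟩
      have h3 := hMge _ (hspan h)
      have h4 := h3.resolve_left one_ne_zero
      rw [p.ord_one] at h4
      omega
    have h3 := bc.ld _ _ h2
    have h4 : (fun i => algebraMap L E ((Fin.cons (1 : L) (fun i => ((b i : M) : L)) :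
        Fin (Module.finrank k M + 1) → L) i)) =
        (Fin.cons (1 : E) (fun i => algebraMap L E ((b i : M) : L)) :
          Fin (Module.finrank k M + 1) → E) := by
      funext i
      refine Fin.cases ?_ (fun i => ?_) i
      · rw [Fin.cons_zero, Fin.cons_zero, map_one]
      · rw [Fin.cons_succ, Fin.cons_succ]
    rw [h4, linearIndependent_finCons] at h3
    apply h3.2
    refine Submodule.span_le.2 ?_ h1
    intro y hy
    obtain ⟨hg1, hg2⟩ := hg y hy
    have h5 : g y ∈ M := Submodule.subset_span ⟨y, hy, rfl⟩
    have h6 := congrArg M.subtype (b.sum_repr ⟨g y, h5⟩)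
    rw [map_sum] at h6
    simp only [map_smul, Submodule.subtype_apply] at h6
    rw [← hg2, ← h6, map_sum]
    refine Submodule.sum_mem _ fun i _ => ?_
    rw [Algebra.smul_def, map_mul, ← IsScalarTower.algebraMap_apply k L E,
      IsScalarTower.algebraMap_apply k Ω E, ← Algebra.smul_def]
    exact Submodule.smul_mem _ _ (Submodule.subset_span ⟨i, rfl⟩)
  have hmO : m ⊆ O := by
    rintro _ ⟨l, hl, rfl⟩
    exact ⟨l, (show Ge p 1 l from hl).mono (by omega), rfl⟩
  have hI : ∀ a ∈ Ideal.span {a : A | (a : E) ∈ m}, (a : E) ∈ Submodule.span Ω m := by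
    intro a ha
    induction ha using Submodule.span_induction with
    | mem a ha => exact Submodule.subset_span ha
    | zero => exact Submodule.zero_mem _
    | add a b _ _ ha hb => exact Submodule.add_mem _ ha hb
    | smul c a _ ha => exact hmul _ (hA _ c.2) _ ha
  obtain ⟨V, hV1, hV2⟩ := Ideal.image_subset_nonunits_valuationSubring (A := A.toSubring)
    (Ideal.span {a : A | (a : E) ∈ m}) (by
      intro htop
      rw [Ideal.eq_top_iff_one] at htop
      exact h1 (hI 1 htop))
  have hVO : ∀ l, Ge p 0 l → algebraMap L E l ∈ V := fun l hl =>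
    hV1 (Algebra.subset_adjoin ⟨l, hl, rfl⟩)
  have hVm : ∀ l, Ge p 1 l → algebraMap L E l ∈ V.nonunits := by
    intro l hl
    exact hV2 ⟨⟨algebraMap L E l, Algebra.subset_adjoin (hmO ⟨l, hl, rfl⟩)⟩,
      Ideal.subset_span ⟨l, hl, rfl⟩, rfl⟩
  obtain ⟨t, ht0, ht⟩ := p.surj
  have ht1 : algebraMap L E t ∈ V.nonunits := hVm t (Or.inr ht.ge)
  have htE : algebraMap L E t ≠ 0 := (_root_.map_ne_zero _).2 ht0
  have hnot : (algebraMap L E t)⁻¹ ∉ V := by
    intro h
    rw [ValuationSubring.mem_nonunits_iff] at ht1
    have h2 := (V.valuation_le_one_iff _).2 h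
    rw [map_inv₀] at h2
    have h3 : V.valuation (algebraMap L E t) ≠ 0 := by
      rw [Valuation.ne_zero_iff]
      exact htE
    exact absurd h2 (not_le.2 ((one_lt_inv₀ (zero_lt_iff.2 h3)).2 ht1))
  obtain ⟨P, hP⟩ := Pool.Agent.TH145.GF.place_of_val V (fun c => hV1 (A.algebraMap_mem c))
    (hVO t (Or.inr (by omega))) hnot
  have hPt : 0 < P.ord (algebraMap L E t) := by
    by_contra hcon
    push Not at hcon
    apply hnot
    rw [← hP]
    right
    rw [P.ord_inv]
    omega
  have hunit : ∀ l : L, l ≠ 0 → p.ord l = 0 → P.ord (algebraMap L E l) = 0 := by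
    intro l hl0 hl
    have h2 := ((hP _).2 (hVO l (Or.inr hl.ge))).resolve_left ((_root_.map_ne_zero _).2 hl0)
    have h3 := ((hP _).2 (hVO l⁻¹ (Or.inr (by rw [p.ord_inv, hl]; omega)))).resolve_left
      ((_root_.map_ne_zero _).2 (inv_ne_zero hl0))
    rw [map_inv₀, P.ord_inv] at h3
    omega
  refine ⟨P, (P.ord (algebraMap L E t)).toNat, by omega, fun l => ?_⟩
  by_cases hl0 : l = 0
  · rw [hl0, map_zero, P.ord_zero, p.ord_zero, mul_zero]
  · have h2 : l = l * t ^ (-(p.ord l)) * t ^ (p.ord l) := by
      rw [mul_assoc, ← zpow_add₀ ht0, neg_add_cancel, zpow_zero, mul_one]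
    have h3 : l * t ^ (-(p.ord l)) ≠ 0 := mul_ne_zero hl0 (zpow_ne_zero _ ht0)
    have h4 : p.ord (l * t ^ (-(p.ord l))) = 0 := by
      rw [p.ord_mul hl0 (zpow_ne_zero _ ht0), p.ord_zpow, ht]
      ring
    have h5 := hunit _ h3 h4
    have h6 : P.ord (algebraMap L E l) = P.ord (algebraMap L E (l * t ^ (-(p.ord l)))) +
        P.ord (algebraMap L E (t ^ (p.ord l))) := by
      rw [← P.ord_mul ((_root_.map_ne_zero _).2 h3)
        ((_root_.map_ne_zero _).2 (zpow_ne_zero _ ht0)), ← map_mul, ← h2]
    rw [h6, h5, zero_add, map_zpow₀, P.ord_zpow, Int.toNat_of_nonneg hPt.le, mul_comm]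

end

end Pool.Agent.Helper11K9.PC
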