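import Pool.Agent.Helper11K9.PC.Sep
import Pool.Agent.TH145.GF.Ext
import Pool.Agent.Y166.GM.Spec

/-!
The regular differentials of a curve separate fewer embeddings of its function field than the
gonality.
-/

set_option autoImplicit false
set_option linter.overlappingInstances false
set_option linter.unusedSectionVars false

open Polynomial FF IntermediateField

namespace Pool.Agent.Helper11K9.PC

open Pool.Agent.W603.LV Pool.Agent.W619.PQ

/-- a valuation ring with constant residues on a finite set, at which given elements are units -/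
theorem exists_val {k Ω : Type} [Field k] [IsAlgClosed k] [Field Ω] [Algebra k Ω] (S : Set Ω)
    (hS : S.Finite) (T : Finset Ω) (hT : ∀ x ∈ T, x ≠ 0 ∧ x ∈ Algebra.adjoin k S) :
    ∃ V : ValuationSubring Ω, (∀ c : k, c ≠ 0 → V.valuation (algebraMap k Ω c) = 1) ∧
      (∀ x ∈ T, V.valuation x = 1) ∧
      ∀ x ∈ S, ∃ a : k, V.valuation (x - algebraMap k Ω a) < 1 := by
  classical
  let A := Algebra.adjoin k S
  have hft : Algebra.FiniteType k A := by
    have h1 : A.FG := by
      have h2 := Subalgebra.fg_adjoin_finset (R := k) hS.toFinset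
      rwa [hS.coe_toFinset] at h2
    exact (Subalgebra.fg_iff_finiteType A).1 h1
  let H : A := ∏ x ∈ T.attach, ⟨x.1, (hT x.1 x.2).2⟩
  have hH : H ≠ 0 := by
    rw [Finset.prod_ne_zero_iff]
    intro x _ h
    exact (hT x.1 x.2).1 (congrArg Subtype.val h)
  obtain ⟨χ, hχ⟩ := Pool.Agent.Y166.GM.exists_spec_field hft H hH
  obtain ⟨V, hV1, hV2⟩ := Ideal.image_subset_nonunits_valuationSubring (A := A.toSubring)
    (RingHom.ker (χ : A →+* k)) (RingHom.ker_ne_top _)
  have hlt : ∀ x : A, V.valuation ((x : Ω) - algebraMap k Ω (χ x)) < 1 := by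
    intro x
    have h1 : ((x - algebraMap k A (χ x) : A) : Ω) ∈ V.nonunits := by
      refine hV2 ⟨x - algebraMap k A (χ x), ?_, rfl⟩
      change (χ : A →+* k) (x - algebraMap k A (χ x)) = 0
      rw [map_sub]
      change χ x - χ (algebraMap k A (χ x)) = 0
      rw [AlgHom.commutes]
      exact sub_self _
    exact (ValuationSubring.mem_nonunits_iff V).1 h1
  have hc : ∀ c : k, c ≠ 0 → V.valuation (algebraMap k Ω c) = 1 := by
    intro c hc
    have h1 : ∀ d : k, V.valuation (algebraMap k Ω d) ≤ 1 := fun d =>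
      (V.valuation_le_one_iff _).2 (hV1 (A.algebraMap_mem d))
    refine le_antisymm (h1 c) ?_
    have h2 := h1 c⁻¹
    rw [map_inv₀, map_inv₀] at h2
    have h3 : V.valuation (algebraMap k Ω c) ≠ 0 := by
      rw [Valuation.ne_zero_iff, Ne, map_eq_zero]
      exact hc
    by_contra hlt
    push Not at hlt
    exact absurd h2 (not_le.2 ((one_lt_inv₀ (zero_lt_iff.2 h3)).2 hlt))
  refine ⟨V, hc, fun x hx => ?_, fun x hx => ⟨_, hlt ⟨x, Algebra.subset_adjoin hx⟩⟩⟩
  obtain ⟨x', hx'⟩ : ∃ x' : A, (x' : Ω) = x := ⟨⟨x, (hT x hx).2⟩, rfl⟩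
  have h1 : χ x' ≠ 0 := by
    intro h0
    apply hχ
    rw [map_prod]
    refine Finset.prod_eq_zero (Finset.mem_attach _ ⟨x, hx⟩) ?_
    rw [← h0]
    congr 1
    exact Subtype.ext hx'.symm
  have h2 := hlt x'
  rw [hx'] at h2
  have h3 := hc _ h1
  have h4 : x = (x - algebraMap k Ω (χ x')) + algebraMap k Ω (χ x') := by ring
  rw [h4, Valuation.map_add_eq_of_lt_right _ (by rwa [h3]), h3]

/-- **The regular differentials separate fewer embeddings than the gonality.** -/
theorem sep_emb {k F Ω : Type} [Field k] [Field F] [Algebra k F] [CharZero k] [IsFF k F]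
    [IsAlgClosed k] [Field Ω] [Algebra k Ω] {D : Derivation k F F} (hD : D ≠ 0) {ι : Type}
    [Fintype ι] (τ : ι → F →ₐ[k] Ω) (hτ : Function.Injective τ)
    (hgon : ∀ t : F, Transcendental k t → Fintype.card ι < Module.finrank k⟮t⟯ F)
    (c : ι → Ω) (hc : ∀ f : F, f ≠ 0 → (∀ P : Place k F, vo P D ≤ P.ord f) →
      ∑ j, c j * τ j f = 0) : c = 0 := by
  classical
  by_contra hne
  obtain ⟨j0, hj0⟩ := Function.ne_iff.1 hne
  rw [Pi.zero_apply] at hj0
  -- a function with poles at the zeros and poles of the differential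
  obtain ⟨t, ht, htp⟩ : ∃ t : F, Transcendental k t ∧
      ∀ P : Place k F, vo P D ≠ 0 → P.ord t < 0 := by
    have hfin := vo_finite hD
    by_cases h0 : hfin.toFinset.Nonempty
    · obtain ⟨t, ht, h1⟩ := exists_poles hfin.toFinset h0
      exact ⟨t, ht, fun P hP => h1 P (hfin.mem_toFinset.2 hP)⟩
    · obtain ⟨t, ht⟩ := IsFF.exists_transcendental (k := k) (K := F)
      refine ⟨t, ht, fun P hP => ?_⟩
      exact absurd ⟨P, hfin.mem_toFinset.2 hP⟩ h0
  -- the separating functions
  have hg : ∀ j, ∃ g : F, j ≠ j0 → τ j g ≠ τ j0 g := by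
    intro j
    by_cases h : j = j0
    · exact ⟨0, fun h' => absurd h h'⟩
    · by_contra hcon
      push Not at hcon
      exact h (hτ (AlgHom.ext fun g => (hcon g).2))
  choose g hg using hg
  let S : Set Ω := Set.range c ∪ Set.range (fun j => τ j t) ∪
    Set.range (fun p : ι × ι => τ p.1 (g p.2))
  have hS : S.Finite := ((Set.finite_range _).union (Set.finite_range _)).union
    (Set.finite_range _)
  let T : Finset Ω := insert (c j0) ((Finset.univ.erase j0).image fun j => τ j (g j) - τ j0 (g j))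
  have hT : ∀ x ∈ T, x ≠ 0 ∧ x ∈ Algebra.adjoin k S := by
    intro x hx
    rw [Finset.mem_insert, Finset.mem_image] at hx
    rcases hx with rfl | ⟨j, hj, rfl⟩
    · exact ⟨hj0, Algebra.subset_adjoin (Or.inl (Or.inl ⟨j0, rfl⟩))⟩
    · refine ⟨sub_ne_zero.2 (hg j (Finset.ne_of_mem_erase hj)), sub_mem ?_ ?_⟩
      · exact Algebra.subset_adjoin (Or.inr ⟨(j, j), rfl⟩)
      · exact Algebra.subset_adjoin (Or.inr ⟨(j0, j), rfl⟩)
  obtain ⟨V, hV1, hV2, hV3⟩ := exists_val S hS T hT
  have hk : ∀ a : k, V.valuation (algebraMap k Ω a) ≤ 1 := by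
    intro a
    by_cases ha : a = 0
    · rw [ha, map_zero, map_zero]
      exact zero_le_one
    · exact (hV1 a ha).le
  have hSle : ∀ x ∈ S, V.valuation x ≤ 1 := by
    intro x hx
    obtain ⟨a, ha⟩ := hV3 x hx
    have h1 : x = (x - algebraMap k Ω a) + algebraMap k Ω a := by ring
    rw [h1]
    exact (Valuation.map_add _ _ _).trans (max_le ha.le (hk a))
  -- the places
  have hplace : ∀ j, ∃ w : Place k F, ∀ f : F, w.Reg f ↔ V.valuation (τ j f) ≤ 1 := by
    intro j
    obtain ⟨a, ha⟩ := hV3 (τ j t) (Or.inl (Or.inr ⟨j, rfl⟩))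
    have h1 : τ j t - algebraMap k Ω a = τ j (t - algebraMap k F a) := by
      rw [map_sub, AlgHom.commutes]
    rw [h1] at ha
    have h2 : t - algebraMap k F a ≠ 0 := by
      intro h
      apply ht
      rw [sub_eq_zero.1 h]
      exact isAlgebraic_algebraMap a
    obtain ⟨w, hw⟩ := Pool.Agent.TH145.GF.place_of_val (V.comap (τ j : F →+* Ω)) (fun c => by
      rw [ValuationSubring.mem_comap]
      change τ j (algebraMap k F c) ∈ V
      rw [AlgHom.commutes, ← V.valuation_le_one_iff]
      exact hk c) (t := t - algebraMap k F a) (by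
      rw [ValuationSubring.mem_comap]
      change τ j _ ∈ V
      rw [← V.valuation_le_one_iff]
      exact ha.le) (by
      rw [ValuationSubring.mem_comap]
      change τ j _ ∉ V
      rw [← V.valuation_le_one_iff, map_inv₀, map_inv₀, not_le]
      refine (one_lt_inv₀ (zero_lt_iff.2 ?_)).2 ha
      rw [Valuation.ne_zero_iff]
      exact (_root_.map_ne_zero _).2 h2)
    refine ⟨w, fun f => ?_⟩
    rw [hw, ValuationSubring.mem_comap, ← V.valuation_le_one_iff]
    rfl
  choose w hw using hplace
  have hpos : ∀ j (f : F), 1 ≤ (w j).ord f → V.valuation (τ j f) < 1 := by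
    intro j f hf
    have hf0 : f ≠ 0 := by
      rintro rfl
      rw [(w j).ord_zero] at hf
      omega
    by_contra hcon
    push Not at hcon
    have h1 : (w j).Reg f⁻¹ := by
      rw [hw, map_inv₀, map_inv₀]
      exact inv_le_one_of_one_le₀ hcon
    have h2 := h1.resolve_left (inv_ne_zero hf0)
    rw [(w j).ord_inv] at h2
    omega
  have hpos' : ∀ j (f : F), V.valuation (τ j f) < 1 → Ge (w j) 1 f := by
    intro j f hf
    by_cases hf0 : f = 0
    · exact Or.inl hf0
    right
    by_contra hcon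
    push Not at hcon
    have h1 : (w j).Reg f⁻¹ := Or.inr (by rw [(w j).ord_inv]; omega)
    rw [hw, map_inv₀, map_inv₀] at h1
    have h3 : V.valuation (τ j f) ≠ 0 := by
      rw [Valuation.ne_zero_iff]
      exact (_root_.map_ne_zero _).2 hf0
    exact absurd h1 (not_le.2 ((one_lt_inv₀ (zero_lt_iff.2 h3)).2 hf))
  -- they are distinct from the place for `j0`
  have hdist : ∀ j, j ≠ j0 → w j ≠ w j0 := by
    intro j hj heq
    obtain ⟨a, ha⟩ := hV3 (τ j (g j)) (Or.inr ⟨(j, j), rfl⟩)
    obtain ⟨b, hb⟩ := hV3 (τ j0 (g j)) (Or.inr ⟨(j0, j), rfl⟩)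
    have h1 : τ j (g j) - algebraMap k Ω a = τ j (g j - algebraMap k F a) := by
      rw [map_sub, AlgHom.commutes]
    have h2 : τ j0 (g j) - algebraMap k Ω b = τ j0 (g j - algebraMap k F b) := by
      rw [map_sub, AlgHom.commutes]
    have h3 : Ge (w j) 1 (g j - algebraMap k F a) := hpos' j _ (by rw [← h1]; exact ha)
    have h4 : Ge (w j) 1 (g j - algebraMap k F b) := by
      rw [heq]
      exact hpos' j0 _ (by rw [← h2]; exact hb)
    have h5 : Ge (w j) 1 (algebraMap k F (b - a)) := by
      have h6 := h3.sub h4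
      have h7 : g j - algebraMap k F a - (g j - algebraMap k F b) = algebraMap k F (b - a) := by
        rw [map_sub]
        ring
      rwa [h7] at h6
    have h6 := const_zero (w j) h5
    have h7 := hV2 (τ j (g j) - τ j0 (g j)) (Finset.mem_insert_of_mem
      (Finset.mem_image.2 ⟨j, Finset.mem_erase.2 ⟨hj, Finset.mem_univ _⟩, rfl⟩))
    have h8 : τ j (g j) - τ j0 (g j) =
        (τ j (g j) - algebraMap k Ω a) - (τ j0 (g j) - algebraMap k Ω b) := by
      rw [sub_eq_zero.1 h6]
      ring
    rw [h8] at h7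
    have h9 := Valuation.map_sub V.valuation (τ j (g j) - algebraMap k Ω a)
      (τ j0 (g j) - algebraMap k Ω b)
    rw [h7] at h9
    exact absurd h9 (not_le.2 (max_lt ha hb))
  -- the differential is a unit at the places
  have hvo : ∀ j, vo (w j) D = 0 := by
    intro j
    by_contra h
    have h1 := htp (w j) h
    have h2 : (w j).Reg t := (hw j t).2 (hSle _ (Or.inl (Or.inr ⟨j, rfl⟩)))
    have h3 : t ≠ 0 := by
      rintro rfl
      exact ht isAlgebraic_zero
    have := h2.resolve_left h3
    omega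
  -- the separating differential
  have hcard : ((Finset.univ.erase j0).image w).card + 1 ≤ Fintype.card ι := by
    have h1 := Finset.card_image_le (s := Finset.univ.erase j0) (f := w)
    rw [Finset.card_erase_of_mem (Finset.mem_univ _), Finset.card_univ] at h1
    have h2 : 0 < Fintype.card ι := Fintype.card_pos_iff.2 ⟨j0⟩
    omega
  obtain ⟨f, hf0, hf1, hf2, hf3⟩ := exists_separating hD ((Finset.univ.erase j0).image w) (w j0)
    (by
      intro h
      rw [Finset.mem_image] at h
      obtain ⟨j, hj, hj'⟩ := h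
      exact hdist j (Finset.ne_of_mem_erase hj) hj')
    (fun t ht => lt_of_le_of_lt hcard (hgon t ht))
  have h1 := hc f hf0 hf1
  rw [← Finset.add_sum_erase _ _ (Finset.mem_univ j0)] at h1
  have h2 : V.valuation (∑ j ∈ Finset.univ.erase j0, c j * τ j f) < 1 := by
    refine Valuation.map_sum_lt _ one_ne_zero fun j hj => ?_
    rw [map_mul]
    have h3 : 1 ≤ (w j).ord f := by
      have := hf3 (w j) (Finset.mem_image_of_mem _ hj)
      rwa [hvo, zero_add] at this
    have h4 := hpos j f h3
    have h5 := hSle (c j) (Or.inl (Or.inl ⟨j, rfl⟩))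
    calc V.valuation (c j) * V.valuation (τ j f) ≤ 1 * V.valuation (τ j f) :=
          mul_le_mul_left h5 _
      _ = V.valuation (τ j f) := one_mul _
      _ < 1 := h4
  have h3 : V.valuation (τ j0 f) = 1 := by
    rw [hvo] at hf2
    refine le_antisymm ((hw j0 f).1 (Or.inr hf2.ge)) ?_
    have h4 : (w j0).Reg f⁻¹ := Or.inr (by rw [(w j0).ord_inv, hf2]; omega)
    rw [hw, map_inv₀, map_inv₀] at h4
    by_contra hlt
    push Not at hlt
    have h5 : V.valuation (τ j0 f) ≠ 0 := by
      rw [Valuation.ne_zero_iff]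
      exact (_root_.map_ne_zero _).2 hf0
    exact absurd h4 (not_le.2 ((one_lt_inv₀ (zero_lt_iff.2 h5)).2 hlt))
  have h4 : V.valuation (c j0 * τ j0 f) = 1 := by
    rw [map_mul, h3, mul_one]
    exact hV2 _ (Finset.mem_insert_self _ _)
  have h5 : c j0 * τ j0 f = -∑ j ∈ Finset.univ.erase j0, c j * τ j f := by
    linear_combination h1
  rw [h5, Valuation.map_neg] at h4
  exact absurd h4 h2.ne

end Pool.Agent.Helper11K9.PC
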