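import Pool.Agent.Helper11K9.PC.BCb
import Pool.Agent.W619.PQ.Alg

/-!
The fibration of a product of curves given by all factors but one.
-/

set_option autoImplicit false
set_option linter.overlappingInstances false
set_option linter.unusedSectionVars false

open FF

namespace Pool.Agent.Helper11K9.PC

open Pool.Agent.W603.LV Pool.Agent.W602.RG

section der

variable {k K M : Type} [Field k] [CharZero k] [Field K] [Algebra k K] [Field M] [Algebra k M]
  [Algebra K M] [IsScalarTower k K M]

/-- derivations which are zero on a field are zero on the algebraic elements -/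
theorem der_alg (D : Derivation k K M) (C : IntermediateField k K) (hC : ∀ z ∈ C, D z = 0) {z : K}
    (hz : IsAlgebraic C z) : D z = 0 := by
  have hC0 : CharZero C := charZero_of_injective_algebraMap (algebraMap k C).injective
  let DC : Derivation C K M :=
    { toFun := D
      map_add' := fun a b => map_add D a b
      map_smul' := fun c a => by
        rw [Algebra.smul_def]
        change D ((c : K) * a) = _
        rw [D.leibniz, hC _ c.2, smul_zero, add_zero]
        rfl
      map_one_eq_zero' := D.map_one_eq_zero
      leibniz' := fun a b => D.leibniz a b }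
  have h1 := DC.map_aeval (minpoly C z) z
  rw [minpoly.aeval, map_zero] at h1
  have h2 : Polynomial.aeval z (Polynomial.derivative (minpoly C z)) ≠ 0 :=
    (minpoly.irreducible hz.isIntegral).separable.aeval_derivative_ne_zero (minpoly.aeval C z)
  exact (smul_eq_zero.1 h1.symm).resolve_left h2

/-- derivations which are zero on a transcendence basis are zero -/
theorem der_zero_of_basis {ι : Type} {y : ι → K} (hy : IsTranscendenceBasis k y)
    (D : Derivation k K M) (h : ∀ i, D (y i) = 0) : D = 0 := by
  let C0 : IntermediateField k K :=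
    { carrier := {f | D f = 0}
      mul_mem' := fun {f g} hf hg => by
        change D (f * g) = 0
        rw [D.leibniz, show D f = 0 from hf, show D g = 0 from hg]
        simp
      add_mem' := fun {f g} hf hg => by
        change D (f + g) = 0
        rw [map_add, show D f = 0 from hf, show D g = 0 from hg, add_zero]
      algebraMap_mem' := fun c => D.map_algebraMap c
      inv_mem' := fun f hf => by
        change D f⁻¹ = 0
        rw [Derivation.leibniz_inv, show D f = 0 from hf, smul_zero] }
  have h1 : IntermediateField.adjoin k (Set.range y) ≤ C0 := by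
    rw [IntermediateField.adjoin_le_iff]
    rintro _ ⟨i, rfl⟩
    exact h i
  have h2 : Algebra.IsAlgebraic (IntermediateField.adjoin k (Set.range y)) K :=
    hy.isAlgebraic_field
  ext z
  exact der_alg D _ (fun z hz => h1 hz) (h2.isAlgebraic z)

end der

section

variable {k L Ω E : Type} [Field k] [Field L] [Field Ω] [Field E] [Algebra k L]
    [Algebra k Ω] [Algebra k E] [Algebra L E] [Algebra Ω E]

/-- elements of the span in terms of a basis -/
theorem U_repr (bc : BC k L Ω E) {ι : Type} (b : Module.Basis ι k L) {f : E}
    (hf : f ∈ Submodule.span Ω (Set.range (algebraMap L E))) :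
    ∃ w : ι →₀ Ω, Finsupp.linearCombination Ω (fun i => algebraMap L E (b i)) w = f := by
  have _ := bc.towerL
  have _ := bc.towerO
  induction hf using Submodule.span_induction with
  | mem f hf =>
    obtain ⟨l, rfl⟩ := hf
    refine ⟨(b.repr l).mapRange (algebraMap k Ω) (map_zero _), ?_⟩
    rw [Finsupp.linearCombination_apply, Finsupp.sum_mapRange_index (by intro i; rw [zero_smul])]
    conv_rhs => rw [← b.linearCombination_repr l, Finsupp.linearCombination_apply, Finsupp.sum,
      map_sum]
    refine Finset.sum_congr rfl fun i _ => ?_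
    beta_reduce
    rw [Algebra.smul_def, Algebra.smul_def, map_mul, ← IsScalarTower.algebraMap_apply k L E,
      ← IsScalarTower.algebraMap_apply k Ω E]
  | zero => exact ⟨0, map_zero _⟩
  | add f g _ _ hf hg =>
    obtain ⟨w, hw⟩ := hf
    obtain ⟨w', hw'⟩ := hg
    exact ⟨w + w', by rw [map_add, hw, hw']⟩
  | smul c f _ hf =>
    obtain ⟨w, hw⟩ := hf
    exact ⟨c • w, by rw [map_smul, hw]⟩

end

section factor

variable {k L : Type} [Field k] [Field L] [Algebra k L] {n : ℕ}

/-- the compositum of the function fields of all factors but one -/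
def Bf (F : Fin n → IntermediateField k L) (i : Fin n) : IntermediateField k L :=
  ⨆ j : {j : Fin n // j ≠ i}, F j.1

theorem le_Bf (F : Fin n → IntermediateField k L) {i j : Fin n} (hj : j ≠ i) : F j ≤ Bf F i :=
  le_iSup (fun j : {j : Fin n // j ≠ i} => F j.1) ⟨j, hj⟩

theorem Bf_le (F : Fin n → IntermediateField k L) {i : Fin n} {E : IntermediateField k L}
    (h : ∀ j, j ≠ i → F j ≤ E) : Bf F i ≤ E := iSup_le fun j => h j.1 j.2

/-- fields which contain the base and the remaining factor -/
theorem all_mem (F : Fin n → IntermediateField k L) (hsup : ⨆ i, F i = ⊤) {i : Fin n}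
    {S : IntermediateField k L} (h1 : Bf F i ≤ S) (h2 : F i ≤ S) (z : L) : z ∈ S := by
  have h3 : (⊤ : IntermediateField k L) ≤ S := by
    rw [← hsup]
    refine iSup_le fun j => ?_
    by_cases hj : j = i
    · rw [hj]
      exact h2
    · exact (le_Bf F hj).trans h1
  exact h3 trivial

theorem transc_factor (F : Fin n → IntermediateField k L) [∀ i, IsFF k (F i)]
    (hsup : ⨆ i, F i = ⊤) (hn : Algebra.trdeg k L = n) (i0 : Fin n) {t : F i0}
    (ht : Transcendental k t) : Transcendental (Bf F i0) (t : L) := by
  classical
  intro halg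
  choose x hx using fun i => IsFF.exists_transcendental (k := k) (K := F i)
  let ι := {j : Fin n // j ≠ i0}
  let S : IntermediateField k L := IntermediateField.adjoin k (Set.range fun j : ι => (x j.1 : L))
  let A : IntermediateField S L := algebraicClosure S L
  have hMA : ∀ z ∈ Bf F i0, z ∈ A := by
    intro z hz
    rw [mem_algebraicClosure_iff]
    exact Pool.Agent.W619.PQ.alg_iSup (fun j : ι => F j.1) (fun j => x j.1) (fun j => hx j.1) hz
  let f : Bf F i0 →+* A := (algebraMap (Bf F i0) L).codRestrict A fun z => hMA z z.2
  have htA : IsAlgebraic A (t : L) :=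
    halg.ringHom_of_comp_eq f (RingHom.id L) f.injective (by ext z; rfl)
  have htA2 : IsAlgebraic S (t : L) := htA.restrictScalars S
  have htA3 : (t : L) ∈ A.restrictScalars k := by
    rw [IntermediateField.mem_restrictScalars, mem_algebraicClosure_iff]
    exact htA2
  have hFA : F i0 ≤ A.restrictScalars k := by
    intro z hz
    have h1 := Pool.Agent.W619.PQ.alg_of_mem (F i0) ht (A.restrictScalars k) htA3 ⟨z, hz⟩
    have h2 : IsAlgebraic A (z : L) := h1
    rw [IntermediateField.mem_restrictScalars, mem_algebraicClosure_iff]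
    exact h2.restrictScalars S
  have hLA : ∀ z : L, IsAlgebraic S z := by
    intro z
    have h1 := all_mem F hsup (S := A.restrictScalars k) (fun z hz => hMA z hz) hFA z
    rwa [IntermediateField.mem_restrictScalars, mem_algebraicClosure_iff] at h1
  have h4 := Pool.Agent.W619.PQ.alg_adjoin hLA
  have h5 := Algebra.IsAlgebraic.trdeg_le_cardinalMk k (Set.range fun j : ι => (x j.1 : L))
  rw [hn] at h5
  have h6 : Cardinal.mk (Set.range fun j : ι => (x j.1 : L)) ≤ ((n - 1 : ℕ) : Cardinal) := by
    have h7 : Cardinal.mk (Set.range fun j : ι => (x j.1 : L)) ≤ Cardinal.mk ι :=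
      Cardinal.mk_range_le
    have h8 : Fintype.card ι = n - 1 := by
      rw [Fintype.card_subtype_compl, Fintype.card_fin, Fintype.card_subtype_eq]
    rw [Cardinal.mk_fintype ι, h8] at h7
    exact h7
  have h7 : n ≤ n - 1 := by exact_mod_cast h5.trans h6
  have h8 : 0 < n := i0.pos
  omega

theorem ess_top (F : Fin n → IntermediateField k L) [∀ i, IsFF k (F i)] (hsup : ⨆ i, F i = ⊤) :
    Algebra.EssFiniteType k L := by
  have h1 : Algebra.EssFiniteType k (⊤ : IntermediateField k L) := by
    rw [← hsup]
    exact IntermediateField.essFiniteType_iff.2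
      (IntermediateField.fg_iSup fun j => IntermediateField.essFiniteType_iff.1 (IsFF.ess))
  have h2 : Algebra.EssFiniteType (⊤ : IntermediateField k L) L := by
    have : Module.Finite (⊤ : IntermediateField k L) L :=
      Module.Finite.of_surjective (Algebra.linearMap (⊤ : IntermediateField k L) L)
        fun z => ⟨⟨z, trivial⟩, rfl⟩
    infer_instance
  exact Algebra.EssFiniteType.comp k (⊤ : IntermediateField k L) L

/-- a field of one variable over a base -/
theorem ff_over {B : IntermediateField k L} {F0 : IntermediateField k L} [IsFF k F0]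
    [Algebra.EssFiniteType k L] (hall : ∀ S : IntermediateField k L, B ≤ S → F0 ≤ S → ∀ z, z ∈ S)
    {t : F0} (ht : Transcendental k t) (htt : Transcendental B (t : L)) : IsFF B L := by
  classical
  refine ⟨Algebra.EssFiniteType.of_comp k B L, ?_⟩
  let S : IntermediateField B L := IntermediateField.adjoin B (Set.range fun _ : Unit => (t : L))
  have hFS : F0 ≤ ((algebraicClosure S L).restrictScalars B).restrictScalars k := by
    intro z hz
    have htS : (t : L) ∈ S.restrictScalars k := by
      rw [IntermediateField.mem_restrictScalars]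
      exact IntermediateField.subset_adjoin _ _ ⟨(), rfl⟩
    have h1 := Pool.Agent.W619.PQ.alg_of_mem F0 ht (S.restrictScalars k) htS ⟨z, hz⟩
    rw [IntermediateField.mem_restrictScalars, IntermediateField.mem_restrictScalars,
      mem_algebraicClosure_iff]
    exact h1
  have hall' : ∀ z : L, IsAlgebraic S z := by
    intro z
    have h1 := hall (((algebraicClosure S L).restrictScalars B).restrictScalars k) (fun z hz => by
      rw [IntermediateField.mem_restrictScalars]
      exact ((algebraicClosure S L).restrictScalars B).algebraMap_mem ⟨z, hz⟩) hFS z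
    rwa [IntermediateField.mem_restrictScalars, IntermediateField.mem_restrictScalars,
      mem_algebraicClosure_iff] at h1
  have h1 : AlgebraicIndependent B (fun _ : Unit => (t : L)) := by
    rw [algebraicIndependent_unique_type_iff]
    exact htt
  have h2 : IsTranscendenceBasis B (fun _ : Unit => (t : L)) := by
    rw [isTranscendenceBasis_iff_algebraicIndependent_isAlgebraic]
    exact ⟨h1, Pool.Agent.W619.PQ.alg_adjoin hall'⟩
  rw [← h2.cardinalMk_eq_trdeg]
  simp

/-- The product is a curve over the product of the other factors. -/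
theorem ff_factor (F : Fin n → IntermediateField k L) [∀ i, IsFF k (F i)]
    (hsup : ⨆ i, F i = ⊤) (hn : Algebra.trdeg k L = n) (i0 : Fin n) : IsFF (Bf F i0) L := by
  have hess := ess_top F hsup
  obtain ⟨t, ht⟩ := IsFF.exists_transcendental (k := k) (K := F i0)
  exact ff_over (fun S h1 h2 => all_mem F hsup h1 h2) ht (transc_factor F hsup hn i0 ht)

theorem trdeg_Bf (F : Fin n → IntermediateField k L) [∀ i, IsFF k (F i)]
    (hsup : ⨆ i, F i = ⊤) (hn : Algebra.trdeg k L = n) (i0 : Fin n) :
    Algebra.trdeg k (Bf F i0) + 1 = n := by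
  have h := ff_factor F hsup hn i0
  rw [← hn, ← trdeg_add_eq k (Bf F i0) (A := L), h.trdeg]

/-- constant field extensions inside a field -/
theorem bc_in [CharZero k] [IsAlgClosed k] {F0 : IntermediateField k L} [IsFF k F0]
    {B : IntermediateField k L}
    (hall : ∀ S : IntermediateField k L, B ≤ S → F0 ≤ S → ∀ z, z ∈ S) {t : F0}
    {N : Type} [Field N] [Algebra N L] [Algebra k N] [IsScalarTower k N L] [CharZero N]
    [IsFF N L] (hN : ∀ y ∈ B, ∃ a : N, algebraMap N L a = y)
    (httN : Transcendental N (t : L)) : BC k F0 N L := by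
  refine bc_mk (x := t) httN ?_
  rw [eq_top_iff]
  intro y _
  have h1 := hall
    ((IntermediateField.adjoin N (Set.range (algebraMap F0 L))).restrictScalars k)
    (fun y hy => by
      obtain ⟨a, rfl⟩ := hN y hy
      exact (IntermediateField.adjoin N _).algebraMap_mem a)
    (fun y hy => by
      rw [IntermediateField.mem_restrictScalars]
      exact IntermediateField.subset_adjoin _ _ ⟨⟨y, hy⟩, rfl⟩) y
  exact h1

/-- **The base is algebraically closed.** -/
theorem base_closed [CharZero k] [IsAlgClosed k] {F0 : IntermediateField k L} [IsFF k F0]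
    {B : IntermediateField k L} [Algebra.EssFiniteType k L]
    (hall : ∀ S : IntermediateField k L, B ≤ S → F0 ≤ S → ∀ z, z ∈ S) {t : F0}
    (ht : Transcendental k t) (htt : Transcendental B (t : L)) {z : L} (hz : IsAlgebraic B z) :
    z ∈ B := by
  classical
  have hFF : IsFF B L := ff_over hall ht htt
  have hB0 : CharZero B := charZero_of_injective_algebraMap (algebraMap k B).injective
  obtain ⟨M, hM⟩ : ∃ M : IntermediateField B L, M = IntermediateField.adjoin B {z} := ⟨_, rfl⟩
  have hTk : IsScalarTower k M L := IsScalarTower.of_algebraMap_eq fun c => rfl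
  have hM0 : CharZero M := charZero_of_injective_algebraMap (algebraMap k M).injective
  have hMalg : Algebra.IsAlgebraic B M := by
    rw [hM]
    exact IntermediateField.isAlgebraic_adjoin_simple hz.isIntegral
  have httM : Transcendental M (t : L) := fun h => htt (h.restrictScalars B)
  have hMFF : IsFF M L := by
    refine ⟨Algebra.EssFiniteType.of_comp k M L, ?_⟩
    have h1 := trdeg_add_eq B M (A := L)
    rw [trdeg_eq_zero, zero_add, hFF.trdeg] at h1
    exact h1
  have bcB : BC k F0 B L := bc_in hall (fun y hy => ⟨⟨y, hy⟩, rfl⟩) htt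
  have bcM : BC k F0 M L := bc_in hall (fun y hy => ⟨algebraMap B M ⟨y, hy⟩, rfl⟩) httM
  let b := Module.Basis.ofVectorSpace k F0
  obtain ⟨p, hp, q, hq, hq0, hpq⟩ := bcB.gen z
  obtain ⟨wp, hwp⟩ := U_repr bcB b hp
  obtain ⟨wq, hwq⟩ := U_repr bcB b hq
  have hli := bc_li bcM b.linearIndependent
  obtain ⟨zM, hzM⟩ : ∃ zM : M, (zM : L) = z :=
    ⟨⟨z, by rw [hM]; exact IntermediateField.mem_adjoin_simple_self _ z⟩, rfl⟩
  obtain ⟨w, hw⟩ : ∃ w : _ →₀ M, w = wp.mapRange (algebraMap B M) (map_zero _) -
    zM • wq.mapRange (algebraMap B M) (map_zero _) := ⟨_, rfl⟩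
  have hlift : ∀ v : _ →₀ B, Finsupp.linearCombination M
      (fun i => algebraMap F0 L (b i)) (v.mapRange (algebraMap B M) (map_zero _)) =
      Finsupp.linearCombination B (fun i => algebraMap F0 L (b i)) v := by
    intro v
    rw [Finsupp.linearCombination_apply, Finsupp.sum_mapRange_index (by intro i; rw [zero_smul]),
      Finsupp.linearCombination_apply]
    rfl
  have h0 : Finsupp.linearCombination M (fun i => algebraMap F0 L (b i)) w = 0 := by
    rw [hw, map_sub, map_smul, hlift, hlift, hwp, hwq]
    change p - (zM : L) * q = 0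
    rw [hzM, hpq, div_mul_cancel₀ _ hq0, sub_self]
  have h1 : w = 0 := by
    rw [linearIndependent_iff] at hli
    exact hli w h0
  have h2 : wq ≠ 0 := by
    rintro rfl
    rw [map_zero] at hwq
    exact hq0 hwq.symm
  obtain ⟨i, hi⟩ := Finsupp.ne_iff.1 h2
  rw [Finsupp.zero_apply] at hi
  have h3 := DFunLike.congr_fun h1 i
  rw [hw, Finsupp.sub_apply, Finsupp.smul_apply, Finsupp.mapRange_apply, Finsupp.mapRange_apply,
    Finsupp.zero_apply, sub_eq_zero] at h3
  have h4 : ((wp i : B) : L) = (zM : L) * ((wq i : B) : L) :=
    congrArg (fun y : M => (y : L)) h3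
  have h5 : ((wq i : B) : L) ≠ 0 := fun h => hi (Subtype.ext h)
  have h6 : z = ((wp i / wq i : B) : L) := by
    change z = ((wp i : B) : L) / ((wq i : B) : L)
    rw [eq_div_iff h5, h4, hzM]
  rw [h6]
  exact (wp i / wq i).2

/-- **The base is algebraically closed in the function field of the product.** -/
theorem Bf_closed [CharZero k] [IsAlgClosed k] (F : Fin n → IntermediateField k L)
    [∀ i, IsFF k (F i)] (hsup : ⨆ i, F i = ⊤) (hn : Algebra.trdeg k L = n) (i0 : Fin n) {z : L}
    (hz : IsAlgebraic (Bf F i0) z) : z ∈ Bf F i0 := by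
  have hess := ess_top F hsup
  obtain ⟨t, ht⟩ := IsFF.exists_transcendental (k := k) (K := F i0)
  exact base_closed (fun S h1 h2 => all_mem F hsup h1 h2) ht (transc_factor F hsup hn i0 ht) hz

end factor

end Pool.Agent.Helper11K9.PC
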