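import Pool.Agent.W619.PQ.Genus
import Pool.Agent.Y692.NT.Tr

/-!
The regular differentials of a curve separate fewer points than the gonality.
-/

set_option autoImplicit false
set_option linter.overlappingInstances false
set_option linter.unusedSectionVars false

open Polynomial FF IsDedekindDomain IntermediateField

namespace Pool.Agent.Helper11K9.PC

open Pool.Agent.W603.LV Pool.Agent.W619.PQ

section

variable {k F : Type} [Field k] [Field F] [Algebra k F] [CharZero k] [IsFF k F] [IsAlgClosed k]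

/-- a function with simple poles at the given places -/
theorem exists_poles (T : Finset (Place k F)) (hT : T.Nonempty) :
    ∃ x : F, Transcendental k x ∧ ∀ P ∈ T, P.ord x < 0 := by
  classical
  have h1 : ∀ P : Place k F, ∃ y : F, P.ord y = -1 ∧ y ≠ 0 ∧ ∀ Q ∈ T.erase P, Ge Q 0 y := by
    intro P
    obtain ⟨π, hπ0, hπ⟩ := P.surj
    obtain ⟨y, hy1, hy2⟩ := approx_one (T.erase P) P (by simp) π⁻¹ 0
    have hπi : P.ord π⁻¹ = -1 := by rw [P.ord_inv, hπ]
    have h2 : y ≠ 0 ∧ P.ord y = -1 := by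
      by_cases h3 : y - π⁻¹ = 0
      · rw [sub_eq_zero.1 h3]
        exact ⟨inv_ne_zero hπ0, hπi⟩
      · have h4 := hy1.resolve_left h3
        have h5 := P.ord_add_eq (f := π⁻¹) (g := y - π⁻¹) (inv_ne_zero hπ0) h3 (by omega)
        rwa [add_sub_cancel, hπi] at h5
    exact ⟨y, h2.2, h2.1, hy2⟩
  choose y hy1 hy0 hy2 using h1
  have h2 : ∀ P ∈ T, P.ord (∑ Q ∈ T, y Q) = -1 := by
    intro P hP
    rw [← Finset.add_sum_erase T y hP]
    have h3 : Ge P 0 (∑ Q ∈ T.erase P, y Q) := by
      refine Ge.sum (T.erase P) _ fun Q hQ => ?_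
      rw [Finset.mem_erase] at hQ
      exact hy2 Q P (Finset.mem_erase.2 ⟨hQ.1.symm, hP⟩)
    by_cases h4 : ∑ Q ∈ T.erase P, y Q = 0
    · rw [h4, add_zero, hy1]
    · have h5 := h3.resolve_left h4
      have h6 := P.ord_add_eq (f := y P) (g := ∑ Q ∈ T.erase P, y Q) (hy0 P) h4
        (by rw [hy1]; omega)
      rw [h6.2, hy1]
  obtain ⟨P, hP⟩ := hT
  exact ⟨∑ Q ∈ T, y Q, P.transcendental_of_ord_ne (by rw [h2 P hP]; omega),
    fun Q hQ => by rw [h2 Q hQ]; omega⟩

/-- the order at a pole of `x` of a rational function of `x` -/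
theorem ord_iota {x : F} (hx : Transcendental k x) {r : k⟮x⟯} (hr0 : r ≠ 0) (P : Place k F)
    (hPx : P.ord x < 0) :
    P.ord (algebraMap k⟮x⟯ F r) = -(iota hx r).order * P.ord x := by
  obtain ⟨p, g, hg, hpg⟩ := exists_px_div r
  have hp : p ≠ 0 := by
    rintro rfl
    rw [map_zero, mul_eq_zero] at hpg
    rcases hpg with h | h
    · exact hr0 h
    · exact hg (px_injective hx (by rw [h, map_zero]))
  have h7 := congrArg (iota hx) hpg
  rw [map_mul, iota_px, iota_px] at h7
  have h9 := congrArg HahnSeries.order h7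
  rw [HahnSeries.order_mul (by rwa [Ne, map_eq_zero]) (eU_ne hg), order_eU hg, order_eU hp] at h9
  have h10 := congrArg (fun z : k⟮x⟯ => P.ord (algebraMap k⟮x⟯ F z)) hpg
  simp only [map_mul] at h10
  have h11 : ∀ s : k[X], algebraMap k⟮x⟯ F (px x s) = aeval x s := coe_px
  rw [h11, h11, P.ord_mul (by simpa using hr0) (ord_aeval_of_neg P hPx hg).1,
    (ord_aeval_of_neg P hPx hg).2, (ord_aeval_of_neg P hPx hp).2] at h10
  have h12 : (iota hx r).order = (g.natDegree : ℤ) - p.natDegree := by omega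
  rw [h12]
  linear_combination h10

variable {x : F} (lam : F →ₗ[k] k) (hI : ∀ y ∈ BI (k := k) x, lam y = 0)

/-- If the functional kills `u b` for all `b` regular at the poles of `x`, where `u` has a simple
pole at `P`, then the differential vanishes at `P`. -/
theorem mult_zero (hx : Transcendental k x) (D : Derivation k F F) (hD : D x = 1)
    {f : F} (hf0 : f ≠ 0)
    (hf : ∀ y, iota hx (Algebra.trace k⟮x⟯ F (f * y)) = SS lam hI y) (P : Place k F)
    (hPx : P.ord x < 0) {u : F} (hu0 : u ≠ 0) (huP : P.ord u = -1)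
    (hlu : ∀ b ∈ BI (k := k) x, lam (u * b) = 0) : vo P D + 1 ≤ P.ord f := by
  classical
  have hD0 : D ≠ 0 := by
    rintro rfl
    simp at hD
  have hfin := IsFF.finite hx
  have hx0 : x ≠ 0 := by
    rintro rfl
    exact hx isAlgebraic_zero
  by_contra hcon
  push Not at hcon
  let xx : k⟮x⟯ := ⟨x, mem_adjoin_simple_self k x⟩
  obtain ⟨e0, q, hq⟩ := exists_over (K := k⟮x⟯) P ⟨xx, by
    change P.ord x ≠ 0; omega⟩
  have hvo := (ord_der P hD0 (f := x) (by omega)).2
  rw [hD, P.ord_one] at hvo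
  have hh0 : x * f * u ≠ 0 := mul_ne_zero (mul_ne_zero hx0 hf0) hu0
  have hfs := finite_support (k := k) x
  have hqx : q.ord xx < 0 := by
    have h1 := hq.2 xx
    have h2 : P.ord (algebraMap k⟮x⟯ F xx) = P.ord x := rfl
    have h3 := hq.1
    by_contra hcon
    push Not at hcon
    have : (0 : ℤ) ≤ e0 * q.ord xx := by positivity
    omega
  obtain ⟨b, hb1, hb2⟩ := exists_contra q P e0 hq (hfs.toFinset.filter fun w => w.ord x < 0)
    (by
      intro w e hw
      have h1 := hw.2 xx
      have h2 : w.ord (algebraMap k⟮x⟯ F xx) = w.ord x := rfl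
      have h3 := hw.1
      have h4 : (e : ℤ) * q.ord xx < 0 := mul_neg_of_pos_of_neg (by exact_mod_cast h3) hqx
      rw [Finset.mem_filter, hfs.mem_toFinset]
      refine ⟨?_, by omega⟩
      show w.ord x ≠ 0
      omega)
    (x * f * u) hh0 (by rw [P.ord_mul (mul_ne_zero hx0 hf0) hu0, P.ord_mul hx0 hf0]; omega)
  apply hb2
  have hbI : b ∈ BI (k := k) x := by
    intro w hw
    apply hb1
    rw [Finset.mem_filter, hfs.mem_toFinset]
    refine ⟨?_, hw⟩
    show w.ord x ≠ 0
    omega
  set r := Algebra.trace k⟮x⟯ F (f * (u * b)) with hr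
  have h5 : Algebra.trace k⟮x⟯ F (x * f * u * b) = xx * r := by
    rw [hr, ← mul_assoc, show x * f * u * b = x * (f * u * b) by ring]
    exact trace_mul_left xx (f * u * b)
  rw [h5]
  have h6 : ∀ j : ℤ, j < 2 → (iota hx r).coeff j = 0 := by
    intro j hj
    rw [hf (u * b), SS_coeff]
    have e1 : x ^ (j - 1) * (u * b) = u * (x ^ (j - 1) * b) := by ring
    rw [e1]
    apply hlu
    intro w hw
    obtain ⟨n, hn⟩ := Int.eq_ofNat_of_zero_le (show 0 ≤ -(j - 1) by omega)
    have h7 : j - 1 = -(n : ℤ) := by omega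
    rw [h7]
    have h8 : Ge w 0 (x ^ (-(n : ℤ))) := by
      right
      rw [w.ord_zpow]
      exact mul_nonneg_of_nonpos_of_nonpos (by omega) (by omega)
    simpa using h8.mul (hbI w hw)
  by_cases hr0 : r = 0
  · left; rw [hr0, mul_zero]
  have h8 : 2 ≤ (iota hx r).order := by
    by_contra hlt
    push Not at hlt
    have h9 := h6 _ hlt
    rw [HahnSeries.coeff_order_eq_zero, map_eq_zero] at h9
    exact hr0 h9
  right
  have h12 : P.ord (algebraMap k⟮x⟯ F (xx * r)) = P.ord x + P.ord (algebraMap k⟮x⟯ F r) := by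
    rw [map_mul, P.ord_mul _ (by simpa using hr0)]
    · rfl
    · change x ≠ 0; exact hx0
  rw [hq.2, ord_iota hx hr0 P hPx] at h12
  have h15 : (iota hx r).order * P.ord x ≤ 2 * P.ord x :=
    mul_le_mul_of_nonpos_right h8 hPx.le
  have h16 : (0 : ℤ) < e0 * q.ord (xx * r) := by
    rw [h12]
    linarith
  have h17 := (pos_iff_pos_of_mul_pos h16).1 (by exact_mod_cast hq.1)
  omega

/-- If the differential vanishes at `P` and `u` has at most a simple pole at `P` and is regular at
the other poles of `x` then the functional kills `u`. -/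
theorem mult_kill (hx : Transcendental k x) (D : Derivation k F F) (hD : D x = 1)
    {f : F} (hf0 : f ≠ 0)
    (hf : ∀ y, iota hx (Algebra.trace k⟮x⟯ F (f * y)) = SS lam hI y)
    (hreg : ∀ P : Place k F, vo P D ≤ P.ord f) (P : Place k F)
    (hPx : P.ord x < 0) {u : F} (huP : Ge P (-1) u)
    (hu : ∀ Q : Place k F, Q ≠ P → Q.ord x < 0 → Ge Q 0 u)
    (hz : vo P D + 1 ≤ P.ord f) : lam u = 0 := by
  classical
  have hD0 : D ≠ 0 := by
    rintro rfl
    simp at hD
  have hfin := IsFF.finite hx
  have hx0 : x ≠ 0 := by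
    rintro rfl
    exact hx isAlgebraic_zero
  let xx : k⟮x⟯ := ⟨x, mem_adjoin_simple_self k x⟩
  obtain ⟨e0, q, hq⟩ := exists_over (K := k⟮x⟯) P ⟨xx, by
    change P.ord x ≠ 0; omega⟩
  have hqx : q.ord xx < 0 := by
    have h1 := hq.2 xx
    have h2 : P.ord (algebraMap k⟮x⟯ F xx) = P.ord x := rfl
    have h3 := hq.1
    by_contra hcon
    push Not at hcon
    have : (0 : ℤ) ≤ e0 * q.ord xx := by positivity
    omega
  have h1 : Ge q 1 (Algebra.trace k⟮x⟯ F (x * (f * u))) := by
    refine Pool.Agent.Y692.NT.trace_ge q _ fun w e hw => ?_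
    have hwx : w.ord x < 0 := by
      have h1 := hw.2 xx
      have h2 : w.ord (algebraMap k⟮x⟯ F xx) = w.ord x := rfl
      have h3 := hw.1
      have h4 : (e : ℤ) * q.ord xx < 0 := mul_neg_of_pos_of_neg (by exact_mod_cast h3) hqx
      omega
    have hvo := (ord_der w hD0 (f := x) (by omega)).2
    rw [hD, w.ord_one] at hvo
    have h5 : Ge w (w.ord x) x := Or.inr le_rfl
    have h6 : Ge w (w.ord f) f := Or.inr le_rfl
    by_cases hwP : w = P
    · rw [hwP] at h5 h6 hvo ⊢
      refine (h5.mul (h6.mul huP)).mono ?_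
      omega
    · refine (h5.mul (h6.mul (hu w hwP hwx))).mono ?_
      have := hreg w
      omega
  set r := Algebra.trace k⟮x⟯ F (f * u) with hr
  have h5 : Algebra.trace k⟮x⟯ F (x * (f * u)) = xx * r := trace_mul_left xx (f * u)
  rw [h5] at h1
  have h2 : (iota hx r).coeff 1 = lam u := by
    rw [hf u, SS_coeff, sub_self, zpow_zero, one_mul]
  rw [← h2]
  by_contra hne
  have hr0 : r ≠ 0 := by
    rintro h0
    rw [h0, map_zero] at hne
    exact hne HahnSeries.coeff_zero
  have h3 : (iota hx r).order ≤ 1 := HahnSeries.order_le_of_coeff_ne_zero hne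
  have h4 : q.ord (xx * r) ≥ 1 := by
    rcases h1 with h1 | h1
    · exfalso
      rcases mul_eq_zero.1 h1 with h6 | h6
      · exact hx0 (congrArg Subtype.val h6)
      · exact hr0 h6
    · exact h1
  have h12 : P.ord (algebraMap k⟮x⟯ F (xx * r)) = P.ord x + P.ord (algebraMap k⟮x⟯ F r) := by
    rw [map_mul, P.ord_mul _ (by simpa using hr0)]
    · rfl
    · change x ≠ 0; exact hx0
  rw [hq.2, ord_iota hx hr0 P hPx] at h12
  have h15 : 1 * P.ord x ≤ (iota hx r).order * P.ord x :=
    mul_le_mul_of_nonpos_right h3 hPx.le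
  have h16 : (0 : ℤ) < e0 * q.ord (xx * r) :=
    mul_pos (by exact_mod_cast hq.1) (by omega)
  linarith

end

section

variable {k F : Type} [Field k] [Field F] [Algebra k F] [CharZero k] [IsFF k F] [IsAlgClosed k]

/-- **The regular differentials separate fewer points than the gonality**: if every nonconstant
function has more than `#S + 1` poles then there is a regular differential (its value on `D` is `f`)
which vanishes at the points of `S` but not at `P0`. -/
theorem exists_separating {D : Derivation k F F} (hD : D ≠ 0) (S : Finset (Place k F))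
    (P0 : Place k F) (hP0 : P0 ∉ S)
    (hgon : ∀ t : F, Transcendental k t → S.card + 1 < Module.finrank k⟮t⟯ F) :
    ∃ f : F, f ≠ 0 ∧ (∀ P : Place k F, vo P D ≤ P.ord f) ∧ P0.ord f = vo P0 D ∧
      ∀ P ∈ S, vo P D + 1 ≤ P.ord f := by
  classical
  obtain ⟨x, hx, hxT⟩ := exists_poles (insert P0 S) (Finset.insert_nonempty _ _)
  have hfin := IsFF.finite hx
  obtain ⟨Z, hZ, -⟩ := poles (k := k) (K := F) hx
  have hDx := der_ne_zero hD hx
  -- functions with one simple pole among the poles of `x`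
  have h1 : ∀ P : Place k F, ∃ y : F, P.ord y = -1 ∧ y ≠ 0 ∧ ∀ Q ∈ Z.erase P, Ge Q 0 y := by
    intro P
    obtain ⟨π, hπ0, hπ⟩ := P.surj
    obtain ⟨y, hy1, hy2⟩ := approx_one (Z.erase P) P (by simp) π⁻¹ 0
    have hπi : P.ord π⁻¹ = -1 := by rw [P.ord_inv, hπ]
    have h2 : y ≠ 0 ∧ P.ord y = -1 := by
      by_cases h3 : y - π⁻¹ = 0
      · rw [sub_eq_zero.1 h3]
        exact ⟨inv_ne_zero hπ0, hπi⟩
      · have h4 := hy1.resolve_left h3
        have h5 := P.ord_add_eq (f := π⁻¹) (g := y - π⁻¹) (inv_ne_zero hπ0) h3 (by omega)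
        rwa [add_sub_cancel, hπi] at h5
    exact ⟨y, h2.2, h2.1, hy2⟩
  choose u hu1 hu0 hu2 using h1
  let N : Submodule k F := (BB (k := k) x ⊔ BI (k := k) x) ⊔ Submodule.span k (u '' (S : Set (Place k F)))
  have hmemN : u P0 ∉ N := by
    intro h
    obtain ⟨bc, hbc, s, hs, hsum⟩ := Submodule.mem_sup.1 h
    obtain ⟨b, hb, c, hc, hbc'⟩ := Submodule.mem_sup.1 hbc
    -- orders of `s`
    have hs1 : ∀ Q : Place k F, Q ∈ Z → Q ∉ S → Ge Q 0 s := by
      intro Q hQ hQS
      have hle : Submodule.span k (u '' (S : Set (Place k F))) ≤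
          ({ carrier := {y | Ge Q 0 y}
             add_mem' := fun ha hb => ha.add hb
             zero_mem' := Ge.zero
             smul_mem' := by
              intro c y hy
              rw [Algebra.smul_def]
              simpa using (Ge.const (P := Q) c).mul hy } : Submodule k F) := by
        rw [Submodule.span_le]
        rintro _ ⟨P, hP, rfl⟩
        exact hu2 P Q (Finset.mem_erase.2 ⟨fun h => hQS (h ▸ hP), hQ⟩)
      exact hle hs
    have hs2 : ∀ Q : Place k F, Q ∈ Z → Ge Q (-1) s := by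
      intro Q hQ
      have hle : Submodule.span k (u '' (S : Set (Place k F))) ≤
          ({ carrier := {y | Ge Q (-1) y}
             add_mem' := fun ha hb => ha.add hb
             zero_mem' := Ge.zero
             smul_mem' := by
              intro c y hy
              rw [Algebra.smul_def]
              simpa using (Ge.const (P := Q) c).mul hy } : Submodule k F) := by
        rw [Submodule.span_le]
        rintro _ ⟨P, hP, rfl⟩
        by_cases hPQ : Q = P
        · rw [hPQ]
          exact Or.inr (hu1 P).ge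
        · exact (hu2 P Q (Finset.mem_erase.2 ⟨hPQ, hQ⟩)).mono (by omega)
      exact hle hs
    have hbe : b = u P0 - c - s := by
      rw [← hsum, ← hbc']
      ring
    have hP0Z : P0 ∈ Z := (hZ P0).2 (hxT P0 (Finset.mem_insert_self _ _))
    -- order at `P0`
    have hb0 : b ≠ 0 ∧ P0.ord b = -1 := by
      have h2 : Ge P0 0 (-c - s) := by
        have h3 := (hc P0 ((hZ P0).1 hP0Z)).add (hs1 P0 hP0Z hP0)
        have h4 : -c - s = -(c + s) := by ring
        rw [h4]
        exact h3.neg
      have h3 : b = u P0 + (-c - s) := by rw [hbe]; ring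
      rw [h3]
      by_cases h4 : -c - s = 0
      · rw [h4, add_zero]
        exact ⟨hu0 P0, hu1 P0⟩
      · have h5 := P0.ord_add_eq (f := u P0) (g := -c - s) (hu0 P0) h4
          (by rw [hu1]; have := h2.resolve_left h4; omega)
        exact ⟨h5.1, by rw [h5.2, hu1]⟩
    have hbt : Transcendental k b := P0.transcendental_of_ord_ne (by omega)
    obtain ⟨T, hT, hT2⟩ := poles (k := k) (K := F) hbt
    have hTsub : T ⊆ insert P0 S := by
      intro Q hQ
      rw [hT] at hQ
      rw [Finset.mem_insert]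
      by_contra hcon
      push Not at hcon
      rcases lt_or_ge (Q.ord x) 0 with hQx | hQx
      · have hQZ := (hZ Q).2 hQx
        have h2 : Ge Q 0 b := by
          rw [hbe]
          exact ((hu2 P0 Q (Finset.mem_erase.2 ⟨hcon.1, hQZ⟩)).sub (hc Q hQx)).sub
            (hs1 Q hQZ hcon.2)
        have := h2.resolve_left hb0.1
        omega
      · have := (hb Q hQx).resolve_left hb0.1
        omega
    have hTord : ∀ Q ∈ T, (-Q.ord b).toNat * Q.deg ≤ 1 := by
      intro Q hQ
      rw [deg_one, mul_one]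
      have hQT := hTsub hQ
      have hQZ : Q ∈ Z := (hZ Q).2 (hxT Q hQT)
      have h2 : Ge Q (-1) b := by
        rw [hbe]
        have h3 : Ge Q (-1) (u P0) := by
          by_cases hQP : Q = P0
          · rw [hQP]
            exact Or.inr (hu1 P0).ge
          · exact (hu2 P0 Q (Finset.mem_erase.2 ⟨hQP, hQZ⟩)).mono (by omega)
        exact (h3.sub ((hc Q ((hZ Q).1 hQZ)).mono (by omega))).sub (hs2 Q hQZ)
      have := h2.resolve_left hb0.1
      omega
    have h3 := hgon b hbt
    rw [← hT2] at h3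
    have h4 : ∑ w ∈ T, (-w.ord b).toNat * w.deg ≤ T.card := by
      have := Finset.sum_le_card_nsmul T _ 1 hTord
      simpa using this
    have h5 := Finset.card_le_card hTsub
    have h6 := Finset.card_insert_le P0 S
    omega
  obtain ⟨lam, hlam, hle⟩ := Submodule.exists_le_ker_of_notMem hmemN
  have hB : ∀ y ∈ BB (k := k) x, lam y = 0 := fun y hy =>
    hle (Submodule.mem_sup_left (Submodule.mem_sup_left hy))
  have hI : ∀ y ∈ BI (k := k) x, lam y = 0 := fun y hy =>
    hle (Submodule.mem_sup_left (Submodule.mem_sup_right hy))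
  have hlam0 : lam ≠ 0 := by
    rintro rfl
    exact hlam rfl
  obtain ⟨f, hf0, hf⟩ := exists_mult lam hI hx hB hlam0
  obtain ⟨D1, hD1⟩ : ∃ D1 : Derivation k F F, D1 = (D x)⁻¹ • D := ⟨_, rfl⟩
  have hD1x : D1 x = 1 := by rw [hD1]; simp [hDx]
  have hreg1 : ∀ P : Place k F, vo P D1 ≤ P.ord f := fun P =>
    mult_regular hx D1 hD1x lam hI hB hf0 hf P
  have hvo : ∀ P : Place k F, vo P D1 = vo P D - P.ord (D x) := by
    intro P
    rw [hD1, vo_smul P hD (inv_ne_zero hDx), P.ord_inv]
    ring
  have hS1 : ∀ P ∈ S, vo P D1 + 1 ≤ P.ord f := by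
    intro P hP
    have hPx := hxT P (Finset.mem_insert_of_mem hP)
    have hPZ := (hZ P).2 hPx
    refine mult_zero lam hI hx D1 hD1x hf0 hf P hPx (hu0 P) (hu1 P) fun b hb => ?_
    obtain ⟨c, hc⟩ := exists_const P (hb P hPx)
    have h2 : u P * b = u P * (b - algebraMap k F c) + c • u P := by
      rw [Algebra.smul_def]
      ring
    rw [h2, map_add, map_smul]
    have h3 : lam (u P) = 0 :=
      hle (Submodule.mem_sup_right (Submodule.subset_span ⟨P, hP, rfl⟩))
    rw [h3, smul_zero, add_zero]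
    apply hI
    intro Q hQ
    by_cases hQP : Q = P
    · rw [hQP]
      have h4 : Ge P (-1) (u P) := Or.inr (hu1 P).ge
      simpa using h4.mul hc
    · have h4 := hu2 P Q (Finset.mem_erase.2 ⟨hQP, (hZ Q).2 hQ⟩)
      have h5 : Ge Q 0 (b - algebraMap k F c) := (hb Q hQ).sub (Ge.const c)
      simpa using h4.mul h5
  have hP1 : P0.ord f = vo P0 D1 := by
    by_contra hne
    have h2 : vo P0 D1 + 1 ≤ P0.ord f := by
      have := hreg1 P0
      omega
    apply hlam
    refine mult_kill lam hI hx D1 hD1x hf0 hf hreg1 P0 (hxT P0 (Finset.mem_insert_self _ _))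
      (Or.inr (hu1 P0).ge) (fun Q hQ hQx => ?_) h2
    exact hu2 P0 Q (Finset.mem_erase.2 ⟨hQ, (hZ Q).2 hQx⟩)
  refine ⟨f * D x, mul_ne_zero hf0 hDx, fun P => ?_, ?_, fun P hP => ?_⟩
  · have h2 := hreg1 P
    rw [hvo] at h2
    rw [P.ord_mul hf0 hDx]
    omega
  · rw [P0.ord_mul hf0 hDx, hP1, hvo]
    ring
  · have h2 := hS1 P hP
    rw [hvo] at h2
    rw [P.ord_mul hf0 hDx]
    omega

end

end Pool.Agent.Helper11K9.PC
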