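import Pool.Agent.Helper11K9.PC.Emb

/-!
Traces of products with regular differentials of curves.
-/

set_option autoImplicit false
set_option linter.overlappingInstances false
set_option linter.unusedSectionVars false

open Polynomial FF IntermediateField

namespace Pool.Agent.Helper11K9.PC

open Pool.Agent.W603.LV Pool.Agent.W619.PQ

/-- the function `f` is the value on `D` of a regular differential which is not zero -/
def RegD {k F : Type} [Field k] [Field F] [Algebra k F] (D : Derivation k F F) (f : F) : Prop :=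
  f ≠ 0 ∧ ∀ P : Place k F, vo P D ≤ P.ord f

section

variable {k F E M : Type} [Field k] [Field F] [Algebra k F] [CharZero k] [IsFF k F] [IsAlgClosed k]
  [Field E] [Field M] [Algebra k E] [Algebra E M] [Algebra k M] [IsScalarTower k E M]
  [FiniteDimensional E M]

/-- embeddings of a field with given generators -/
theorem emb_inj (τ : F →ₐ[k] M) (hgen : IntermediateField.adjoin E (Set.range τ) = ⊤) {Ω : Type}
    [Field Ω] [Algebra E Ω] [Algebra k Ω] [IsScalarTower k E Ω] :
    Function.Injective fun σ : M →ₐ[E] Ω => (σ.restrictScalars k).comp τ := by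
  intro σ σ' h
  let C0 : IntermediateField E M :=
    { carrier := {z | σ z = σ' z}
      mul_mem' := fun {a b} ha hb => by
        change σ (a * b) = σ' (a * b)
        rw [map_mul, map_mul, show σ a = σ' a from ha, show σ b = σ' b from hb]
      add_mem' := fun {a b} ha hb => by
        change σ (a + b) = σ' (a + b)
        rw [map_add, map_add, show σ a = σ' a from ha, show σ b = σ' b from hb]
      algebraMap_mem' := fun c => by
        change σ _ = σ' _
        rw [AlgHom.commutes, AlgHom.commutes]
      inv_mem' := fun a ha => by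
        change σ a⁻¹ = σ' a⁻¹
        rw [map_inv₀, map_inv₀, show σ a = σ' a from ha] }
  have h2 : IntermediateField.adjoin E (Set.range τ) ≤ C0 := by
    rw [IntermediateField.adjoin_le_iff]
    rintro _ ⟨f, rfl⟩
    exact DFunLike.congr_fun h f
  ext z
  have h3 : z ∈ IntermediateField.adjoin E (Set.range τ) := by
    rw [hgen]
    trivial
  exact h2 h3

/-- **A function orthogonal to the regular differentials of a curve for the trace is zero**, if the
degree is smaller than the gonality. -/
theorem c_one {D : Derivation k F F} (hD : D ≠ 0) (τ : F →ₐ[k] M)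
    (hgen : IntermediateField.adjoin E (Set.range τ) = ⊤)
    (hgon : ∀ t : F, Transcendental k t → Module.finrank E M < Module.finrank k⟮t⟯ F)
    {c : M} (hc : ∀ f, RegD D f → Algebra.trace E M (τ f * c) = 0) : c = 0 := by
  have hE : CharZero E := charZero_of_injective_algebraMap (algebraMap k E).injective
  have hT : IsScalarTower k E (AlgebraicClosure E) := inferInstance
  have h1 := sep_emb (Ω := AlgebraicClosure E) hD
    (fun σ : M →ₐ[E] AlgebraicClosure E => (σ.restrictScalars k).comp τ) (emb_inj τ hgen)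
    (by rwa [AlgHom.card]) (fun σ => σ c) (fun f hf0 hf => by
      have h2 := congrArg (algebraMap E (AlgebraicClosure E)) (hc f ⟨hf0, hf⟩)
      rw [trace_eq_sum_embeddings (AlgebraicClosure E), map_zero] at h2
      rw [← h2]
      refine Finset.sum_congr rfl fun σ _ => ?_
      rw [map_mul, mul_comm]
      rfl)
  have h2 : Nonempty (M →ₐ[E] AlgebraicClosure E) := ⟨IsAlgClosed.lift⟩
  obtain ⟨σ⟩ := h2
  have h3 := congrFun h1 σ
  exact (map_eq_zero σ).1 h3

/-- the dimension of the span of the regular differentials -/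
theorem span_dim {D : Derivation k F F} (hD : D ≠ 0) (τ : F →ₐ[k] M)
    (hgen : IntermediateField.adjoin E (Set.range τ) = ⊤) {d : ℕ}
    (hd : d ≤ Module.finrank E M)
    (hgon : ∀ t : F, Transcendental k t → d < Module.finrank k⟮t⟯ F) :
    d ≤ Module.finrank E (Submodule.span E {y | ∃ f, RegD D f ∧ τ f = y}) := by
  classical
  have hE : CharZero E := charZero_of_injective_algebraMap (algebraMap k E).injective
  obtain ⟨W, hW⟩ : ∃ W : Submodule E M, W = Submodule.span E {y | ∃ f, RegD D f ∧ τ f = y} :=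
    ⟨_, rfl⟩
  rw [← hW]
  obtain ⟨s, -, hs⟩ := Finset.exists_subset_card_eq
    (s := (Finset.univ : Finset (M →ₐ[E] AlgebraicClosure E))) (n := d) (by
      rwa [Finset.card_univ, AlgHom.card])
  let g : s → W →ₗ[E] AlgebraicClosure E := fun σ =>
    (σ : M →ₐ[E] AlgebraicClosure E).toLinearMap.comp W.subtype
  let Φ : (s → AlgebraicClosure E) →ₗ[AlgebraicClosure E] (W →ₗ[E] AlgebraicClosure E) :=
    Fintype.linearCombination (AlgebraicClosure E) g
  have hΦ : Function.Injective Φ := by
    rw [← LinearMap.ker_eq_bot, LinearMap.ker_eq_bot']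
    intro c hc
    refine sep_emb (Ω := AlgebraicClosure E) hD
      (fun σ : s => ((σ : M →ₐ[E] AlgebraicClosure E).restrictScalars k).comp τ) ?_ ?_ c ?_
    · intro a b hab
      exact Subtype.ext (emb_inj τ hgen hab)
    · rwa [Fintype.card_coe, hs]
    · intro f hf0 hf
      have h1 : τ f ∈ W := by
        rw [hW]
        exact Submodule.subset_span ⟨f, ⟨hf0, hf⟩, rfl⟩
      have h2 := DFunLike.congr_fun hc (⟨τ f, h1⟩ : W)
      simp only [Φ, Fintype.linearCombination_apply, LinearMap.sum_apply, LinearMap.smul_apply,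
        smul_eq_mul, LinearMap.zero_apply] at h2
      exact h2
  have h1 := LinearMap.finrank_le_finrank_of_injective hΦ
  rw [Module.finrank_linearMap, Module.finrank_self, mul_one, Module.finrank_fintype_fun_eq_card,
    Fintype.card_coe, hs] at h1
  exact h1

/-- the dimension of the span of the regular differentials -/
theorem span_dim' {D : Derivation k F F} (hD : D ≠ 0) (τ : F →ₐ[k] M) {d : ℕ}
    (hd : d ≤ Module.finrank E (IntermediateField.adjoin E (Set.range τ)))
    (hgon : ∀ t : F, Transcendental k t → d < Module.finrank k⟮t⟯ F) :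
    d ≤ Module.finrank E (Submodule.span E {y | ∃ f, RegD D f ∧ τ f = y}) := by
  let τ' : F →ₐ[k] IntermediateField.adjoin E (Set.range τ) :=
    { toFun := fun g => ⟨τ g, IntermediateField.subset_adjoin E _ ⟨g, rfl⟩⟩
      map_one' := Subtype.ext (map_one τ)
      map_mul' := fun a b => Subtype.ext (map_mul τ a b)
      map_zero' := Subtype.ext (map_zero τ)
      map_add' := fun a b => Subtype.ext (map_add τ a b)
      commutes' := fun c => Subtype.ext (τ.commutes c) }
  have hgen : IntermediateField.adjoin E (Set.range τ') = ⊤ := by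
    apply IntermediateField.map_injective (IntermediateField.adjoin E (Set.range τ)).val
    rw [IntermediateField.adjoin_map, ← AlgHom.fieldRange_eq_map,
      IntermediateField.fieldRange_val]
    congr 1
    ext y
    constructor
    · rintro ⟨_, ⟨f, rfl⟩, rfl⟩
      exact ⟨f, rfl⟩
    · rintro ⟨f, rfl⟩
      exact ⟨_, ⟨f, rfl⟩, rfl⟩
  have h1 := span_dim hD τ' hgen hd hgon
  have h2 : (Submodule.span E {y | ∃ f, RegD D f ∧ τ' f = y}).map
      (IntermediateField.adjoin E (Set.range τ)).val.toLinearMap =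
      Submodule.span E {y | ∃ f, RegD D f ∧ τ f = y} := by
    rw [Submodule.map_span]
    congr 1
    ext y
    constructor
    · rintro ⟨_, ⟨f, hf, rfl⟩, rfl⟩
      exact ⟨f, hf, rfl⟩
    · rintro ⟨f, hf, rfl⟩
      exact ⟨_, ⟨f, hf, rfl⟩, rfl⟩
  have hinj : Function.Injective (IntermediateField.adjoin E (Set.range τ)).val.toLinearMap :=
    Subtype.val_injective
  rw [← h2, ← (Submodule.equivMapOfInjective _ hinj _).finrank_eq]
  exact h1

end

section

variable {k F₁ F₂ E M : Type} [Field k] [Field F₁] [Algebra k F₁] [Field F₂] [Algebra k F₂]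
  [CharZero k] [IsFF k F₁] [IsFF k F₂] [IsAlgClosed k]
  [Field E] [Field M] [Algebra k E] [Algebra E M] [Algebra k M] [IsScalarTower k E M]
  [FiniteDimensional E M]

/-- **Two curves.** -/
theorem c_two {D₁ : Derivation k F₁ F₁} (hD₁ : D₁ ≠ 0) {D₂ : Derivation k F₂ F₂} (hD₂ : D₂ ≠ 0)
    (τ₁ : F₁ →ₐ[k] M) (τ₂ : F₂ →ₐ[k] M) {d₁ d₂ : ℕ}
    (hd₁ : d₁ ≤ Module.finrank E (IntermediateField.adjoin E (Set.range τ₁)))
    (hd₂ : d₂ ≤ Module.finrank E (IntermediateField.adjoin E (Set.range τ₂)))
    (hgon₁ : ∀ t : F₁, Transcendental k t → d₁ < Module.finrank k⟮t⟯ F₁)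
    (hgon₂ : ∀ t : F₂, Transcendental k t → d₂ < Module.finrank k⟮t⟯ F₂)
    (h : Module.finrank E M < d₁ + d₂) {c : M}
    (hc : ∀ f₁ f₂, RegD D₁ f₁ → RegD D₂ f₂ → Algebra.trace E M (c * (τ₁ f₁ * τ₂ f₂)) = 0) :
    c = 0 := by
  classical
  have hE : CharZero E := charZero_of_injective_algebraMap (algebraMap k E).injective
  by_contra hc0
  obtain ⟨W₁, hW₁⟩ : ∃ W : Submodule E M, W = Submodule.span E {y | ∃ f, RegD D₁ f ∧ τ₁ f = y} :=
    ⟨_, rfl⟩
  obtain ⟨W₂, hW₂⟩ : ∃ W : Submodule E M, W = Submodule.span E {y | ∃ f, RegD D₂ f ∧ τ₂ f = y} :=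
    ⟨_, rfl⟩
  have h1 := span_dim' hD₁ τ₁ hd₁ hgon₁
  have h2 := span_dim' hD₂ τ₂ hd₂ hgon₂
  rw [← hW₁] at h1
  rw [← hW₂] at h2
  have hinj : Function.Injective (LinearMap.mulLeft E c) := by
    intro a b hab
    exact mul_left_cancel₀ hc0 hab
  have h3 : Module.finrank E (W₁.map (LinearMap.mulLeft E c)) = Module.finrank E W₁ :=
    (Submodule.equivMapOfInjective _ hinj W₁).finrank_eq.symm
  have htr : ∀ w₁ ∈ W₁, ∀ w₂ ∈ W₂, Algebra.trace E M (c * (w₁ * w₂)) = 0 := by
    intro w₁ hw₁
    rw [hW₁] at hw₁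
    induction hw₁ using Submodule.span_induction with
    | mem y hy =>
      obtain ⟨f₁, hf₁, rfl⟩ := hy
      intro w₂ hw₂
      rw [hW₂] at hw₂
      induction hw₂ using Submodule.span_induction with
      | mem y hy =>
        obtain ⟨f₂, hf₂, rfl⟩ := hy
        exact hc f₁ f₂ hf₁ hf₂
      | zero => rw [mul_zero, mul_zero, map_zero]
      | add a b _ _ ha hb => rw [mul_add, mul_add, map_add, ha, hb, add_zero]
      | smul r a _ ha => rw [mul_smul_comm, mul_smul_comm, map_smul, ha, smul_zero]
    | zero =>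
      intro w₂ _
      rw [zero_mul, mul_zero, map_zero]
    | add a b _ _ ha hb =>
      intro w₂ hw₂
      rw [add_mul, mul_add, map_add, ha w₂ hw₂, hb w₂ hw₂, add_zero]
    | smul r a _ ha =>
      intro w₂ hw₂
      rw [smul_mul_assoc, mul_smul_comm, map_smul, ha w₂ hw₂, smul_zero]
  have hle : W₁.map (LinearMap.mulLeft E c) ≤ (Algebra.traceForm E M).orthogonal W₂ := by
    rintro _ ⟨w₁, hw₁, rfl⟩
    rw [LinearMap.BilinForm.mem_orthogonal_iff]
    intro w₂ hw₂
    rw [Algebra.traceForm_apply, LinearMap.mulLeft_apply]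
    have h4 := htr w₁ hw₁ w₂ hw₂
    rw [show w₂ * (c * w₁) = c * (w₁ * w₂) by ring]
    exact h4
  have h5 := Submodule.finrank_mono hle
  have h6 := LinearMap.BilinForm.finrank_orthogonal (traceForm_nondegenerate E M) W₂
  have h7 := Submodule.finrank_le W₂
  omega

end

end Pool.Agent.Helper11K9.PC
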